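import Pool.Agent.W300.SvD.ExData

/-!
The explicit polytope: real version.
-/

namespace Pool.Agent.W300.SvD.Ex

open Pool.Agent.W300.SvD

attribute [local irreducible] bas aZ Dl gZ ptZ path

abbrev E6 := EuclideanSpace ℝ (Fin 6)

/-- linear form with given integer coefficients -/
noncomputable def lin (w : Fin 6 → ℤ) : E6 →ₗ[ℝ] ℝ where
  toFun x := ∑ m, (w m : ℝ) * x m
  map_add' x y := by
    rw [← Finset.sum_add_distrib]
    refine Finset.sum_congr rfl (fun m _ => ?_)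
    rw [PiLp.add_apply]; ring
  map_smul' r x := by
    rw [RingHom.id_apply, smul_eq_mul, Finset.mul_sum]
    refine Finset.sum_congr rfl (fun m _ => ?_)
    rw [PiLp.smul_apply, smul_eq_mul]; ring

theorem lin_apply (w : Fin 6 → ℤ) (x : E6) : lin w x = ∑ m, (w m : ℝ) * x m := rfl

/-- the facet functionals -/
noncomputable def aR (F : Fin 8) : E6 →ᵃ[ℝ] ℝ :=
  (lin (fun m => aZ F m.succ)).toAffineMap + AffineMap.const ℝ E6 (aZ F 0 : ℝ)

theorem aR_apply (F : Fin 8) (x : E6) :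
    aR F x = (aZ F 0 : ℝ) + ∑ m : Fin 6, (aZ F m.succ : ℝ) * x m := by
  change lin (fun m => aZ F m.succ) x + (aZ F 0 : ℝ) = _
  rw [lin_apply, add_comm]

/-- the point with homogeneous integer coordinates `p` -/
noncomputable def pt (p : Fin 7 → ℤ) : E6 := WithLp.toLp 2 (fun m => (p m.succ : ℝ) / (p 0 : ℝ))

theorem pt_apply (p : Fin 7 → ℤ) (m : Fin 6) : pt p m = (p m.succ : ℝ) / (p 0 : ℝ) := rfl

theorem aR_pt (F : Fin 8) (p : Fin 7 → ℤ) (hp : 0 < p 0) :
    aR F (pt p) = ((∑ m, aZ F m * p m : ℤ) : ℝ) / (p 0 : ℝ) := by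
  have hp' : (p 0 : ℝ) ≠ 0 := by exact_mod_cast hp.ne'
  have h : (∑ m, aZ F m * p m : ℤ) = aZ F 0 * p 0 + ∑ m : Fin 6, aZ F m.succ * p m.succ :=
    Fin.sum_univ_succ _
  rw [aR_apply, h, Int.cast_add, Int.cast_mul, Int.cast_sum, add_div,
    mul_div_cancel_right₀ _ hp', Finset.sum_div]
  refine congrArg₂ (· + ·) rfl (Finset.sum_congr rfl (fun m _ => ?_))
  rw [pt_apply, Int.cast_mul]; ring

/-- the vertices -/
noncomputable def v (i j : Fin 4) : E6 := pt (hZ (i, j))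

theorem aR_v (F : Fin 8) (i j : Fin 4) :
    aR F (v i j) = (if F = ro i ∨ F = co j then (Dl : ℝ) else 0) / (hZ (i, j) 0 : ℝ) := by
  rw [v, aR_pt F _ (wt_ok (i, j)), val_ok (i, j) F]
  split_ifs <;> simp

theorem Dl_pos : (0 : ℝ) < (Dl : ℝ) := by
  have : 0 < Dl := by decide +kernel
  exact_mod_cast this

/-- sign of the relation -/
noncomputable def cR (F : Fin 8) : ℝ := if F.val < 4 then 1 else -1

/-- coefficients of one -/
noncomputable def alR (F : Fin 8) : ℝ := (bas F 0 : ℝ) / (Dl : ℝ)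

theorem lin_comb (u : Fin 8 → ℝ) (x : E6) :
    ∑ F, u F * aR F x = (∑ F, u F * (aZ F 0 : ℝ)) +
      ∑ m : Fin 6, (∑ F, u F * (aZ F m.succ : ℝ)) * x m := by
  simp only [aR_apply, mul_add, Finset.sum_add_distrib, Finset.mul_sum, Finset.sum_mul]
  congr 1
  rw [Finset.sum_comm]
  refine Finset.sum_congr rfl (fun m _ => Finset.sum_congr rfl (fun F _ => ?_))
  ring

theorem coord_eq (n : Fin 7) (x : E6) :
    ∑ F, (bas F n : ℝ) * aR F x = (Dl : ℝ) * (if h : n = 0 then 1 else x (n.pred h)) := by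
  have key : ∀ m : Fin 7, ∑ F, (bas F n : ℝ) * (aZ F m : ℝ) = if n = m then (Dl : ℝ) else 0 := by
    intro m
    have := dual_ok n m
    have h2 := congrArg (fun z : ℤ => (z : ℝ)) this
    simp only [Int.cast_sum, Int.cast_mul] at h2
    rw [h2]
    split_ifs <;> simp
  rw [lin_comb, key 0]
  simp only [key]
  by_cases h : n = 0
  · subst h
    rw [dif_pos rfl, if_pos rfl]
    rw [Finset.sum_eq_zero]
    · ring
    · intro m _
      rw [if_neg (Fin.succ_ne_zero m).symm, zero_mul]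
  · rw [dif_neg h, if_neg h, zero_add]
    rw [Finset.sum_eq_single (n.pred h)]
    · rw [Fin.succ_pred, if_pos rfl]
    · intro m _ hm
      rw [if_neg, zero_mul]
      intro e
      apply hm
      subst e
      exact (Fin.pred_succ m).symm
    · intro hh; exact absurd (Finset.mem_univ _) hh

theorem sum_ro_co (f : Fin 8 → ℝ) : ∑ F, f F = ∑ i, f (ro i) + ∑ j, f (co j) := by
  simp only [Fin.sum_univ_eight, Fin.sum_univ_four, ro, co]
  simp only [Matrix.cons_val_zero, Matrix.cons_val_one, Matrix.cons_val]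
  ring

theorem rel_real (x : E6) : ∑ i, aR (ro i) x = ∑ j, aR (co j) x := by
  have key : ∀ m : Fin 7, ∑ i, (aZ (ro i) m : ℝ) = ∑ j, (aZ (co j) m : ℝ) := by
    intro m
    exact_mod_cast rel_ok m
  simp only [aR_apply, Finset.sum_add_distrib]
  refine congrArg₂ (· + ·) (key 0) ?_
  rw [Finset.sum_comm]
  conv_rhs => rw [Finset.sum_comm]
  refine Finset.sum_congr rfl (fun m _ => ?_)
  rw [← Finset.sum_mul, ← Finset.sum_mul, key]

theorem cR_ro (i : Fin 4) : cR (ro i) = 1 := by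
  fin_cases i <;> simp [cR, ro]

theorem cR_co (j : Fin 4) : cR (co j) = -1 := by
  fin_cases j <;> simp [cR, co]

theorem frame : Frame aR cR alR where
  rel x := by
    rw [sum_ro_co]
    simp only [cR_ro, cR_co, one_mul, neg_mul, Finset.sum_neg_distrib]
    rw [rel_real]; ring
  one x := by
    have h := coord_eq 0 x
    rw [dif_pos rfl, mul_one] at h
    have h2 : ∑ F, alR F * aR F x = (∑ F, (bas F 0 : ℝ) * aR F x) / (Dl : ℝ) := by
      rw [Finset.sum_div]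
      refine Finset.sum_congr rfl (fun F _ => ?_)
      rw [alR]; ring
    rw [h2, h, div_self Dl_pos.ne']
  inj x y hxy := by
    ext m
    have h1 := coord_eq m.succ x
    have h2 := coord_eq m.succ y
    rw [dif_neg (Fin.succ_ne_zero m), Fin.pred_succ] at h1 h2
    have h3 : ∑ F, (bas F m.succ : ℝ) * aR F x = ∑ F, (bas F m.succ : ℝ) * aR F y :=
      Finset.sum_congr rfl (fun F _ => by rw [hxy F])
    rw [h1, h2] at h3
    exact mul_left_cancel₀ Dl_pos.ne' h3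

theorem hZ_pos (i j : Fin 4) : (0 : ℝ) < (hZ (i, j) 0 : ℝ) := by exact_mod_cast wt_ok (i, j)

theorem grid : Grid aR cR alR ro co v where
  fr := frame
  cpos i := by rw [cR_ro]; norm_num
  cneg j := by rw [cR_co]; norm_num
  cover F := by revert F; decide
  ro_inj := by decide
  co_inj := by decide
  vz i j F h1 h2 := by rw [aR_v, if_neg (by tauto), zero_div]
  vr i j := by rw [aR_v, if_pos (Or.inl rfl)]; exact div_pos Dl_pos (hZ_pos i j)
  vc i j := by rw [aR_v, if_pos (Or.inr rfl)]; exact div_pos Dl_pos (hZ_pos i j)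

theorem cont_aR (F : Fin 8) : Continuous (aR F) := (aR F).continuous_of_finiteDimensional

/-- the point with given values of the facet functionals -/
noncomputable def Phi (s : Fin 8 → ℝ) : E6 :=
  WithLp.toLp 2 (fun m => (∑ F, (bas F m.succ : ℝ) * s F) / (Dl : ℝ))

theorem cont_Phi : Continuous Phi := by
  unfold Phi
  fun_prop

theorem Phi_aR (x : E6) : Phi (fun F => aR F x) = x := by
  ext m
  have h1 := coord_eq m.succ x
  rw [dif_neg (Fin.succ_ne_zero m), Fin.pred_succ] at h1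
  change (∑ F, (bas F m.succ : ℝ) * aR F x) / (Dl : ℝ) = x m
  rw [h1, mul_div_cancel_left₀ _ Dl_pos.ne']

theorem le_Dl {x : E6} (hx : x ∈ poly aR) (F : Fin 8) : aR F x ≤ (Dl : ℝ) := by
  have h := coord_eq 0 x
  rw [dif_pos rfl, mul_one, sum_ro_co] at h
  have hr : 0 ≤ ∑ i, (bas (ro i) 0 : ℝ) * aR (ro i) x := by
    refine Finset.sum_nonneg (fun i _ => mul_nonneg ?_ (hx _))
    exact_mod_cast basw_ok.1 i
  have hc : ∑ j, aR (co j) x ≤ ∑ j, (bas (co j) 0 : ℝ) * aR (co j) x := by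
    refine Finset.sum_le_sum (fun j _ => ?_)
    have : (1 : ℝ) ≤ (bas (co j) 0 : ℝ) := by exact_mod_cast basw_ok.2 j
    exact le_mul_of_one_le_left (hx _) this
  have hcD : ∑ j, aR (co j) x ≤ (Dl : ℝ) := by linarith
  have hrD : ∑ i, aR (ro i) x ≤ (Dl : ℝ) := by rw [rel_real]; exact hcD
  rcases grid.cover F with ⟨i, rfl⟩ | ⟨j, rfl⟩
  · exact (Finset.single_le_sum (f := fun i => aR (ro i) x) (fun i _ => hx (ro i))
      (Finset.mem_univ i)).trans hrD
  · exact (Finset.single_le_sum (f := fun j => aR (co j) x) (fun j _ => hx (co j))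
      (Finset.mem_univ j)).trans hcD

theorem bounded : Bornology.IsBounded (poly aR) := by
  have hcomp : IsCompact (Phi '' Set.Icc (fun _ => (0 : ℝ)) (fun _ => (Dl : ℝ))) :=
    isCompact_Icc.image cont_Phi
  refine hcomp.isBounded.subset (fun x hx => ?_)
  exact ⟨fun F => aR F x, ⟨fun F => hx F, fun F => le_Dl hx F⟩, Phi_aR x⟩

theorem fullDim : (interior (poly aR)).Nonempty := by
  refine ⟨pt cen, ?_⟩
  rw [mem_interior]
  refine ⟨{x | ∀ F, 0 < aR F x}, fun x hx F => (hx F).le, ?_, ?_⟩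
  · have : {x : E6 | ∀ F, 0 < aR F x} = ⋂ F, {x | 0 < aR F x} := by
      ext x; simp
    rw [this]
    exact isOpen_iInter_of_finite (fun F => isOpen_lt continuous_const (cont_aR F))
  · intro F
    rw [aR_pt F cen cen_ok.1]
    have h1 : (0 : ℝ) < (cen 0 : ℝ) := by exact_mod_cast cen_ok.1
    have h2 : (0 : ℝ) < ((∑ m, aZ F m * cen m : ℤ) : ℝ) := by exact_mod_cast cen_ok.2 F
    exact div_pos h2 h1

theorem irredundant (F : Fin 8) : ∃ x, aR F x < 0 ∧ ∀ E, E ≠ F → 0 ≤ aR E x := by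
  obtain ⟨h0, h1, h2⟩ := pt_ok F
  have h0' : (0 : ℝ) < (ptZ F 0 : ℝ) := by exact_mod_cast h0
  refine ⟨pt (ptZ F), ?_, ?_⟩
  · rw [aR_pt F _ h0]
    have : ((∑ m, aZ F m * ptZ F m : ℤ) : ℝ) < 0 := by exact_mod_cast h1
    exact div_neg_of_neg_of_pos this h0'
  · intro E hE
    rw [aR_pt E _ h0]
    have : (0 : ℝ) ≤ ((∑ m, aZ E m * ptZ F m : ℤ) : ℝ) := by exact_mod_cast h2 E hE
    exact div_nonneg this h0'.le

theorem isSimple : IsSimplePolytope aR where
  bounded := bounded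
  fullDim := fullDim
  irredundant := irredundant
  simple x hx := by
    obtain ⟨i, j, rfl⟩ := grid.extreme_eq hx
    have h1 : {F | aR F (v i j) = 0} = ({ro i, co j} : Set (Fin 8))ᶜ := by
      ext F
      simp only [Set.mem_ofPred_eq, Set.mem_compl_iff, Set.mem_insert_iff,
        Set.mem_singleton_iff, not_or]
      constructor
      · intro h
        constructor
        · rintro rfl; exact (grid.vr i j).ne' h
        · rintro rfl; exact (grid.vc i j).ne' h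
      · rintro ⟨h1, h2⟩; exact grid.vz i j F h1 h2
    have h2 := Set.ncard_add_ncard_compl ({ro i, co j} : Set (Fin 8))
    rw [Set.ncard_pair (grid.ro_ne_co i j), Nat.card_fin] at h2
    rw [h1]
    omega

/-- the objective -/
noncomputable def phi : E6 →ₗ[ℝ] ℝ := lin gZ

theorem phi_sub (p q : Fin 7 → ℤ) (hp : 0 < p 0) (hq : 0 < q 0) :
    phi (pt q) - phi (pt p) = (ZN p q : ℝ) / ((p 0 : ℝ) * (q 0 : ℝ)) := by
  have hp' : (p 0 : ℝ) ≠ 0 := by exact_mod_cast hp.ne'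
  have hq' : (q 0 : ℝ) ≠ 0 := by exact_mod_cast hq.ne'
  rw [phi, lin_apply, lin_apply, ← Finset.sum_sub_distrib, ZN, Int.cast_sum, Finset.sum_div]
  refine Finset.sum_congr rfl (fun m _ => ?_)
  rw [pt_apply, pt_apply, Int.cast_mul, Int.cast_sub, Int.cast_mul, Int.cast_mul]
  field_simp

theorem norm_sub_pt (p q : Fin 7 → ℤ) (hp : 0 < p 0) (hq : 0 < q 0) :
    ‖pt q - pt p‖ = √(ZQ p q : ℝ) / ((p 0 : ℝ) * (q 0 : ℝ)) := by
  have hp' : (0 : ℝ) < (p 0 : ℝ) := by exact_mod_cast hp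
  have hq' : (0 : ℝ) < (q 0 : ℝ) := by exact_mod_cast hq
  have hpq : (0 : ℝ) < (p 0 : ℝ) * (q 0 : ℝ) := mul_pos hp' hq'
  rw [EuclideanSpace.norm_eq]
  have h : ∑ m, ‖(pt q - pt p) m‖ ^ 2 = (ZQ p q : ℝ) / ((p 0 : ℝ) * (q 0 : ℝ)) ^ 2 := by
    rw [ZQ, Int.cast_sum, Finset.sum_div]
    refine Finset.sum_congr rfl (fun m _ => ?_)
    rw [PiLp.sub_apply, pt_apply, pt_apply, Real.norm_eq_abs, sq_abs, Int.cast_pow,
      Int.cast_sub, Int.cast_mul, Int.cast_mul]
    field_simp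
  rw [h, Real.sqrt_div' _ (sq_nonneg _), Real.sqrt_sq hpq.le]

theorem slope_eq (p q : Fin 7 → ℤ) (hp : 0 < p 0) (hq : 0 < q 0) :
    (phi (pt q) - phi (pt p)) / ‖pt q - pt p‖ = (ZN p q : ℝ) / √(ZQ p q : ℝ) := by
  have hp' : (0 : ℝ) < (p 0 : ℝ) := by exact_mod_cast hp
  have hq' : (0 : ℝ) < (q 0 : ℝ) := by exact_mod_cast hq
  have hpq : (0 : ℝ) < (p 0 : ℝ) * (q 0 : ℝ) := mul_pos hp' hq'
  rw [phi_sub p q hp hq, norm_sub_pt p q hp hq, div_div_div_cancel_right₀ hpq.ne']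

theorem slope_le {N1 N2 Q1 Q2 : ℤ} (hN1 : 0 < N1) (hQ1 : 0 < Q1) (hQ2 : 0 < Q2)
    (h : N2 ≤ 0 ∨ N2 ^ 2 * Q1 ≤ N1 ^ 2 * Q2) :
    (N2 : ℝ) / √(Q2 : ℝ) ≤ (N1 : ℝ) / √(Q1 : ℝ) := by
  have n1 : (0 : ℝ) < (N1 : ℝ) := by exact_mod_cast hN1
  have q1 : (0 : ℝ) < (Q1 : ℝ) := by exact_mod_cast hQ1
  have q2 : (0 : ℝ) < (Q2 : ℝ) := by exact_mod_cast hQ2
  have s1 := Real.sqrt_pos.2 q1
  have s2 := Real.sqrt_pos.2 q2
  by_cases hN2 : N2 ≤ 0
  · have n2 : (N2 : ℝ) ≤ 0 := by exact_mod_cast hN2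
    exact (div_nonpos_of_nonpos_of_nonneg n2 s2.le).trans (div_pos n1 s1).le
  · have h' := h.resolve_left hN2
    have h'' : (N2 : ℝ) ^ 2 * (Q1 : ℝ) ≤ (N1 : ℝ) ^ 2 * (Q2 : ℝ) := by exact_mod_cast h'
    have n2 : (0 : ℝ) ≤ (N2 : ℝ) := by
      have : 0 ≤ N2 := by omega
      exact_mod_cast this
    rw [div_le_div_iff₀ s2 s1]
    have h3 := Real.sqrt_le_sqrt h''
    rw [Real.sqrt_mul (sq_nonneg _), Real.sqrt_mul (sq_nonneg _), Real.sqrt_sq n2,
      Real.sqrt_sq n1.le] at h3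
    exact h3

/-- vertex of a pair -/
noncomputable def V (p : Fin 4 × Fin 4) : E6 := v p.1 p.2

theorem V_eq (p : Fin 4 × Fin 4) : V p = pt (hZ p) := rfl

/-- the path -/
noncomputable def xs (n : ℕ) : E6 := if h : n < 16 then V (path ⟨n, h⟩) else 0

theorem xs_lt (n : Fin 15) : xs n = V (path n.castSucc) := by
  have : (n : ℕ) < 16 := by omega
  rw [xs, dif_pos this]; rfl

theorem xs_succ (n : Fin 15) : xs (n + 1) = V (path n.succ) := by
  have : (n : ℕ) + 1 < 16 := by omega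
  rw [xs, dif_pos this]; rfl

theorem steep : IsSteepPath aR phi 15 xs := by
  have hx0 : xs 0 = V (path 0) := by
    have := xs_lt 0
    exact this
  refine ⟨⟨?_, ?_, ?_⟩, ?_⟩
  · rw [hx0]; exact grid.mem_extreme _ _
  · intro i hi
    have h1 := xs_lt ⟨i, hi⟩
    have h2 := xs_succ ⟨i, hi⟩
    simp only at h1 h2
    rw [h1, h2]
    rcases (step_ok ⟨i, hi⟩).1 with ⟨ha, hb⟩ | ⟨ha, hb⟩
    · rw [V, V, ← ha]; exact grid.adj_col _ hb
    · rw [V, V, ← ha]; exact grid.adj_row hb _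
  · intro i hi
    have h1 := xs_lt ⟨i, hi⟩
    have h2 := xs_succ ⟨i, hi⟩
    simp only at h1 h2
    rw [h1, h2, V_eq, V_eq]
    have h3 := phi_sub _ _ (wt_ok (path (Fin.castSucc ⟨i, hi⟩))) (wt_ok (path (Fin.succ ⟨i, hi⟩)))
    have h4 : (0 : ℝ) < (ZN (hZ (path (Fin.castSucc ⟨i, hi⟩))) (hZ (path (Fin.succ ⟨i, hi⟩))) : ℝ)
      := by exact_mod_cast (step_ok ⟨i, hi⟩).2.1
    have h5 : (0 : ℝ) < (hZ (path (Fin.castSucc ⟨i, hi⟩)) 0 : ℝ) := by
      exact_mod_cast wt_ok _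
    have h6 : (0 : ℝ) < (hZ (path (Fin.succ ⟨i, hi⟩)) 0 : ℝ) := by
      exact_mod_cast wt_ok _
    have := div_pos h4 (mul_pos h5 h6)
    rw [← h3] at this
    exact sub_pos.1 this
  · intro i hi w hw
    have h1 := xs_lt ⟨i, hi⟩
    have h2 := xs_succ ⟨i, hi⟩
    simp only at h1 h2
    rw [h1] at hw ⊢
    rw [h2]
    obtain ⟨k, l, rfl⟩ := grid.extreme_eq hw.2.1
    have hsh := grid.adj_share hw
    have hne : (k, l) ≠ path (Fin.castSucc ⟨i, hi⟩) := by
      intro e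
      apply hw.2.2.1
      rw [V, ← e]
    have e2 : v k l = V (k, l) := rfl
    rw [e2, V_eq, V_eq, V_eq]
    rw [slope_eq _ _ (wt_ok _) (wt_ok _), slope_eq _ _ (wt_ok _) (wt_ok _)]
    have hs := steep_ok ⟨i, hi⟩ (k, l) (hsh.imp Eq.symm Eq.symm) hne
    exact slope_le (step_ok ⟨i, hi⟩).2.1 (step_ok ⟨i, hi⟩).2.2 hs.1 hs.2

end Pool.Agent.W300.SvD.Ex
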