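import Pool.Agent.W300.SvD.Check

/-!
The certificate, and the theorem that there is no canonically labelled Hamiltonian
Dantzig path.
-/

namespace Pool.Agent.W300.SvD

open Cert in
/-- the certificate -/
def cert : Cert :=
  N O (N O O (N O O O (N O O O O O (N (N O (N O O (N O O O O O O (F 42212) O) O O O (F 25812) O)
  (N O (N O O O O O O (F 25748) O) O O O O (F 42212) O) O O O (F 9412) O) (N (N O O (N O O O O O
  O (F 42212) O) O O O (F 9284) O) O (N (N O O O O O O (F 9284) O) O O O O O (F 42212) O) O O O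
  (F 25812) O) (N (N O (N O O O O O O (F 25748) O) O O O O (F 9348) O) (N (N O O O O O O (F
  9284) O) O O O O O (F 25748) O) O O O O (F 42212) O) O O O (N (F 46342) (F 46662) (N (F 46342)
  (N (N O O O O O (F 6212) O (F 62416)) O O O O (F 22676) O (F 63440)) O O O (N (F 19344) (F
  23440) O O O O O (F 46308)) O (F 64464)) O O O O (N (F 63750) (F 64070) (N (F 63750) (N (N O O
  O O O (F 7236) (F 11332) O) O O O O (F 23700) (F 27796) O) O O O (N (F 19408) (F 23504) O O O
  O (N (F 35808) (F 39904) O O O O O O) O) (N (F 35808) (F 39904) O O O (N (F 19344) (F 23440) O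
  O O O O O) O O) O) O O O O O)) O) O O) O (N (N O (N O O O (N O O O O (N O O O O O O (N (F
  9348) (F 25748) (F 5552389) O O O O (N (F 13444) (F 29844) (F 63638) O O O O O)) O) O (F
  35968) O) O O (F 25748) O) O (F 23616) O O (F 9348) O) (N (N O O O (N O O O O (N O O O O O O
  (N (F 9284) (F 25748) (F 5552389) O O O O (N (F 13380) (F 29844) (F 63894) O O O O O)) O) O (F
  35968) O) O O (F 9284) O) O O (F 19520) O O (F 25748) O) O (F 19520) O O (N (F 42246) (N (N O
  O O (N O O O O (N O O O O O (N (F 6212) (N (N O O O O O O O (F 13380)) O O O O O O (F 29844))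
  O O O O O (N (F 58064) (F 59088) (F 9747717) O O O O O)) O (F 61136)) (F 19520) O (F 52416)) O
  (F 6212) O (F 58064)) O O (F 35968) O (N (F 18064) O O (F 19520) O O O (F 29844)) O (F 59088))
  O (F 35968) O O O (N (F 59654) (N (N O O O (N O O O O (N O O O O O (F 62050) (N (F 11332) (N
  (N O O O O O (F 6212) O O) O O O O (F 22740) O O) O O O (N (F 20112) (F 24208) O O O O O O) O
  O) O) (F 19520) (F 35968) O) O (F 7236) (F 11332) O) O O (F 52416) O (N (F 18128) O O (F
  19520) O O (N (F 34528) O O (F 35968) O O O O) O) (N (F 34528) O O (F 35968) O (N (F 18064) O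
  O (F 19520) O O O O) O O) O) O (F 52416) O O O O)) O) O O) O O (N (N O O (N O O O (N O O O O
  (N O O (N O O O O O O (F 41444) O) O O O (N (F 9284) (N (N O O (N O O O O (N O O O O O O O (F
  45540)) O O (F 51392)) O O O O (F 13380)) O (F 34944) O O O O (F 30932)) (F 34944) O O O O (N
  (F 13380) (F 63574) (F 51392) O O O O O)) O) O (F 35968) O) (N O O O (F 14400) O O (N (F 9284)
  (N (N O O O (N O O O O (F 14400) (N O O O O (N O O O O O O O (N (F 13380) (F 30868) (F
  6601989) O O O O O)) O O (F 52416)) O (F 52416)) O O O (F 13380)) O O (F 35968) O O O (F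
  30868)) O (F 35968) O O O (N (F 13380) (F 59478) O (F 52416) O O O O)) O) O (F 34944) O) O O O
  (F 9284) O) O (F 18496) O O O (N (N O O (N O O O (N O O O O (F 59666) (F 19520) O (F 52416))
  (N O O O (F 14464) O (N (N O O O (F 29072) O O O (F 13380)) O O (F 19520) O O O (N (F 53712)
  (N (N O O O (N O O O O (F 14464) (F 19520) (F 8764689) O) O (N O O O (F 29072) O O O O) O O) O
  O (F 52416) O O O O) O (F 52416) O O O O)) O (F 55760)) (F 18496) O (F 51392)) O O (N O O (F
  24976) O O O O (F 13380)) O (F 53712)) O (F 34944) O O O O (N (N O O (N O O O (N O O O O (F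
  63762) (F 19520) (F 35968) O) (N O O O (F 14528) O (F 45650) (N (N O O O (F 45536) O (F 6276)
  O O) O O (F 35968) O (N (F 18832) O O (F 19520) O O O O) O O) O) (F 18496) (F 34944) O) O O (N
  O O (F 25040) O O O (N O O (F 41440) O O O O O) O) (N O O (F 41440) O O (N O O (F 24976) O O O
  O O) O O) O) O (F 51392) O O O O O)) O) O O) O O O (N O (N O O (N O O O (N O O O O (N O (N O O
  (N O O O O O O (F 41444) O) O O O (F 25044) O) (N O (N O O O O O O (F 24980) O) O O O O (F
  41444) O) O O O (N (N O (F 45654) (N O (N O O O O (F 18836) O O (F 50368)) O O (N O (F 6272) O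
  O O O O (F 45540)) O O (F 51392)) O O O O (F 14532)) (F 33920) (F 34944) O O O O (N (F 63766)
  (F 50368) (F 51392) O O O O O)) O) O (F 35968) O) (N O (N O O O (F 13376) O O (F 24980) O) O
  (F 29760) O O (N (N O (N O O O (N O O O O (F 29760) (N O O O O (N O (N O O O O O O O (F
  29076)) O O O O O (N (F 14468) (F 50368) (F 8764693) O O O O O)) O O (F 52416)) O (F 52416))
  (N O O O (F 13376) O O O (F 29076)) O O (F 50368)) O (F 40080) O O O (F 14468)) (F 33920) O (F
  35968) O O O (N (F 59670) (F 50368) O (F 52416) O O O O)) O) O (F 34944) O) O (N O O (F 9280)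
  O O O (N (N O O (N O O O (N O O O O (F 13376) (F 59474) O (F 52416)) (F 9280) (N O O O (F
  30864) (N O O O (F 13376) O O O (N (F 14404) (N (N O O O (N O O O O (F 13376) (F 30864) (F
  6601985) O) O O O O) O O (F 52416) O O O O) O (F 52416) O O O O)) O O (F 51392)) O (F 51392))
  O O O O (F 14404)) O (F 34944) O O O O (N (N O O (N O O O (N O O O O (F 13376) (F 63570) (F
  35968) O) (F 9280) (N O O O (F 30928) (N O O O (F 13376) O O (N (N O O O (F 45536) O O O O) O
  O (F 35968) O O O O) O) O (F 34944) O) (F 34944) O) O O O (N O O (F 41440) O O O O O) O) O (F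
  51392) O O O O O)) O) O (F 33920) O) O O O O (N O (N O O (N O O O (N O O O O (F 59650) (N O (N
  O O (N O O O O (F 34532) O O (F 51392)) O (F 18132) O O (F 50368)) (N O (N O O O O (F 18068) O
  O (F 50368)) O O (F 34532) O O (F 51392)) O (N O (F 7232) (F 11328) O O O O (N (N O (F 62054)
  (N O (N O O O O (F 7232) (F 24212) O O) O O (F 11328) (N O (F 22736) O O (N O (F 6208) O O O O
  O O) O O O) O O) O O O O O) (F 50368) (F 51392) O O O O O)) O O (F 52416)) O (F 52416)) (F
  42242) (N O (N O O O (F 29840) (F 18068) O O (F 50368)) O (F 46224) (N O (F 6208) O (F 14400)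
  O O O (N (N O (N O O O (N O O O O (F 14400) (F 46224) (F 9747713) O) (F 6208) (N O O O (F
  29840) (N O O O (F 13376) O O O O) O O O) O O) O (F 56544) O O O O) (F 50368) O (F 52416) O O
  O O)) O O (F 51392)) O (F 51392)) O (N O O (F 9344) O O (N O O (F 25744) O O O O (N (N O O (N
  O O O (N O O O O (F 13440) (F 29840) (F 63634) O) (F 9344) (F 25744) (F 5552385) O) O O O O O)
  O (F 51392) O O O O O)) O (F 50384)) (N O O (F 25744) O (N O O (F 9280) O O O O (N (N O O (N O
  O O (N O O O O (F 13376) (F 29840) (F 63890) O) (F 9280) (F 25744) (F 5552385) O) O O O O O) O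
  (F 51392) O O O O O)) O O (F 50368)) O (F 50368)) O O O O O (N O (N O O (N O O O (N O O O O (F
  63746) (F 64066) (N O (N O O (N O O O O (F 35812) (F 39908) O O) O (F 19412) (F 23508) O O) (N
  O (N O O O O (F 19348) (F 23444) O O) O O (F 35812) (F 39908) O O) O (F 63746) (N O (F 23696)
  (F 27792) O (N O (F 7232) (F 11328) O O O O O) O O O) O O) O) (F 46338) (F 46658) (N O (N O O
  O (F 46304) (F 19348) (F 23444) O O) O (F 62688) (F 46338) (N O (F 22672) O (F 30864) (N O (F
  6208) O (F 14400) O O O O) O O O) O O) O) O (N O O (F 9408) O O (N O O (F 25808) O O O (N O O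
  (F 42208) O O O O O) O) (N O O (F 42208) O O (N O O (F 25744) O O O O O) O O) O) (N O O (F
  25808) O (N O O (F 9280) O O O (N O O (F 42208) O O O O O) O) O (N O O (F 42208) O (N O O (F
  9280) O O O O O) O O O) O) (N O O (F 42208) O (N O O (F 9344) O O (N O O (F 25744) O O O O O)
  O O) (N O O (F 25744) O (N O O (F 9280) O O O O O) O O O) O O) O) O O O O O O)) O) O O

set_option maxRecDepth 100000 in
theorem cert_ok : check cert [0] 0 0 = true := by decide +kernel

variable {A B G D c d : Fin 4 → ℝ} {z : Fin 4 → Fin 4 → ℝ} {t : Fin 4 → Fin 4 → ℕ}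

theorem no_canonical {p : ℕ → ℕ} (h : Real4 A B G D c d z t) (hp : PathSeq p t) : False := by
  have h0 : p 0 / 4 = 0 := by
    by_contra hne
    obtain ⟨m, hm, _⟩ := hp.canR 0 (by norm_num) 0 (Nat.pos_of_ne_zero hne)
    omega
  have h1 : p 0 % 4 = 0 := by
    by_contra hne
    obtain ⟨m, hm, _⟩ := hp.canC 0 (by norm_num) 0 (Nat.pos_of_ne_zero hne)
    omega
  have h2 : p 0 = 0 := by omega
  refine check_sound h hp cert 1 le_rfl (by norm_num) ?_
  have e : (List.range 1).map p = [0] := by simp [h2]
  have e1 : p (1 - 1) / 4 = 0 := h0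
  have e2 : p (1 - 1) % 4 = 0 := h1
  rw [e, e1, e2]
  exact cert_ok

end Pool.Agent.W300.SvD
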