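import Pool.Agent.W300.SvD.Pat

/-!
A certificate checker for the combinatorial part, and its soundness.
-/

namespace Pool.Agent.W300.SvD

/-- Certificate trees: `O` for a move that is not allowed, `F w` for a state refuted by the
witness with code `w`, `N` for an inner node (four row moves, four column moves). -/
inductive Cert : Type
  | O : Cert
  | F : ℕ → Cert
  | N : Cert → Cert → Cert → Cert → Cert → Cert → Cert → Cert → Cert

/-- base-4 digit -/
def dig (w k : ℕ) : Fin 4 := ⟨w / 4 ^ k % 4, Nat.mod_lt _ (by norm_num)⟩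

/-- position of the vertex `(i, j)` in the list `L` of codes -/
def pos (L : List ℕ) (i j : Fin 4) : ℕ := L.idxOf (4 * i.val + j.val)

/-- pattern P as a Boolean -/
def violP (t : Fin 4 → Fin 4 → ℕ) (j l r1 r2 r3 cy : Fin 4) : Bool :=
  decide (t r1 j < t r1 l ∧ t r2 l < t r2 j ∧ t r3 j < t r3 l ∧ (cy = j ∨ cy = l) ∧
    t r1 j < t r2 cy ∧ t r2 cy < t r3 l)

/-- pattern EE as a Boolean -/
def violEE (t : Fin 4 → Fin 4 → ℕ) (m : ℕ) (i j l i2 j2 l2 k cx k2 cy : Fin 4) : Bool :=
  decide (t i l = t i j + 1 ∧ t i l < m ∧ t i2 l2 = t i2 j2 + 1 ∧ t i2 l2 < m ∧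
    t i j < t i l2 ∧ t i2 j2 < t i2 l ∧ t k l < t k l2 ∧ t k2 l2 < t k2 l ∧
    (cx = l ∨ cx = l2) ∧ (cy = l ∨ cy = l2) ∧ t i j ≤ t k cx ∧ t k2 cy ≤ t i2 j2 ∧
    t k cx < t k2 cy)

/-- pattern EG as a Boolean -/
def violEG (t : Fin 4 → Fin 4 → ℕ) (m : ℕ) (i j l i2 j2 k : Fin 4) : Bool :=
  decide (t i l = t i j + 1 ∧ t i l < m ∧ t k j2 = t i2 j2 + 1 ∧ t k j2 < m ∧
    t i j < t i2 j2 ∧ t i j < t k j ∧ t i2 j2 < t i2 l ∧ (j = j2 ∨ t i2 j2 < t i2 j) ∧
    t k j < t k l)

/-- the violation with code `w`, without the transposition digit -/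
def viol0 (t : Fin 4 → Fin 4 → ℕ) (m w : ℕ) : Bool :=
  match (dig w 0).val with
  | 0 => violP t (dig w 2) (dig w 3) (dig w 4) (dig w 5) (dig w 6) (dig w 7)
  | 1 => violEE t m (dig w 2) (dig w 3) (dig w 4) (dig w 5) (dig w 6) (dig w 7) (dig w 8)
      (dig w 9) (dig w 10) (dig w 11)
  | 2 => violEG t m (dig w 2) (dig w 3) (dig w 4) (dig w 5) (dig w 6) (dig w 7)
  | _ => false

/-- the violation with code `w` -/
def viol (t : Fin 4 → Fin 4 → ℕ) (m w : ℕ) : Bool :=
  if (dig w 1).val = 0 then viol0 t m w else viol0 (fun i j => t j i) m w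

/-- is the move to `(a, b)` allowed after the list `L`? -/
def allowed (L : List ℕ) (a b : ℕ) : Bool :=
  !(L.contains (4 * a + b)) && (List.range a).all (fun x => L.any (fun u => u / 4 == x)) &&
    (List.range b).all (fun x => L.any (fun u => u % 4 == x))

/-- the checker; `i`, `j` are the row and the column of the last vertex of `L` -/
def check : Cert → List ℕ → ℕ → ℕ → Bool
  | .O, _, _, _ => false
  | .F w, L, _, _ => viol (pos L) L.length w
  | .N r0 r1 r2 r3 c0 c1 c2 c3, L, i, j =>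
    decide (L.length < 16) &&
    (!(allowed L 0 j) || check r0 (L ++ [4 * 0 + j]) 0 j) &&
    (!(allowed L 1 j) || check r1 (L ++ [4 * 1 + j]) 1 j) &&
    (!(allowed L 2 j) || check r2 (L ++ [4 * 2 + j]) 2 j) &&
    (!(allowed L 3 j) || check r3 (L ++ [4 * 3 + j]) 3 j) &&
    (!(allowed L i 0) || check c0 (L ++ [4 * i + 0]) i 0) &&
    (!(allowed L i 1) || check c1 (L ++ [4 * i + 1]) i 1) &&
    (!(allowed L i 2) || check c2 (L ++ [4 * i + 2]) i 2) &&
    (!(allowed L i 3) || check c3 (L ++ [4 * i + 3]) i 3)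

variable {A B G D c d : Fin 4 → ℝ} {z : Fin 4 → Fin 4 → ℝ} {t : Fin 4 → Fin 4 → ℕ}

theorem viol0_false (h : Real4 A B G D c d z t) (t' : Fin 4 → Fin 4 → ℕ) (m w : ℕ)
    (ht : ∀ i j, t' i j = min (t i j) m) (hv : viol0 t' m w = true) : False := by
  unfold viol0 at hv
  split at hv
  · simp only [violP, decide_eq_true_eq, ht] at hv
    obtain ⟨h1, h2, h3, h4, h5, h6⟩ := hv
    exact h.patP (j := dig w 2) (l := dig w 3) (r1 := dig w 4) (r2 := dig w 5)
      (r3 := dig w 6) (cy := dig w 7) (by omega) (by omega) (by omega) h4 (by omega) (by omega)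
  · simp only [violEE, decide_eq_true_eq, ht] at hv
    obtain ⟨h1, h2, h3, h4, h5, h6, h7, h8, h9, h10, h11, h12, h13⟩ := hv
    exact h.patEE (i := dig w 2) (j := dig w 3) (l := dig w 4) (i2 := dig w 5) (j2 := dig w 6)
      (l2 := dig w 7) (k := dig w 8) (cx := dig w 9) (k2 := dig w 10) (cy := dig w 11)
      (by omega) (by omega) (by omega) (by omega) (by omega) (by omega) h9 h10
      (by omega) (by omega) (by omega)
  · simp only [violEG, decide_eq_true_eq, ht] at hv
    obtain ⟨h1, h2, h3, h4, h5, h6, h7, h8, h9⟩ := hv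
    exact h.patEG (i := dig w 2) (j := dig w 3) (l := dig w 4) (i2 := dig w 5) (j2 := dig w 6)
      (k := dig w 7) (by omega) (by omega) (by omega) (by omega) (by omega)
      (h8.imp id (fun h => by omega)) (by omega)
  · exact absurd hv (by simp)

theorem viol_false (h : Real4 A B G D c d z t) (t' : Fin 4 → Fin 4 → ℕ) (m w : ℕ)
    (ht : ∀ i j, t' i j = min (t i j) m) (hv : viol t' m w = true) : False := by
  unfold viol at hv
  split at hv
  · exact viol0_false h t' m w ht hv
  · exact viol0_false h.swap (fun i j => t' j i) m w (fun i j => ht j i) hv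

/-- combinatorial hypotheses on the sequence of codes of the path -/
structure PathSeq (p : ℕ → ℕ) (t : Fin 4 → Fin 4 → ℕ) : Prop where
  lt16 : ∀ n, n < 16 → p n < 16
  inj : ∀ m n, m < n → n < 16 → p m ≠ p n
  t_lt : ∀ i j, t i j < 16
  p_t : ∀ i j : Fin 4, p (t i j) = 4 * i.val + j.val
  adj : ∀ n, n + 1 < 16 → p n / 4 = p (n + 1) / 4 ∨ p n % 4 = p (n + 1) % 4
  canR : ∀ n, n < 16 → ∀ x, x < p n / 4 → ∃ m, m < n ∧ p m / 4 = x
  canC : ∀ n, n < 16 → ∀ x, x < p n % 4 → ∃ m, m < n ∧ p m % 4 = x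

theorem idxOf_map_range (p : ℕ → ℕ) (inj : ∀ m n, m < n → n < 16 → p m ≠ p n) (n : ℕ)
    (hn : n < 16) : ∀ m, m ≤ 16 → ((List.range m).map p).idxOf (p n) = min n m := by
  intro m
  induction m with
  | zero => intro _; simp
  | succ m ih =>
    intro hm
    have ih' := ih (by omega)
    rw [List.range_succ, List.map_append, List.idxOf_append]
    by_cases hnm : n < m
    · have hmem : p n ∈ (List.range m).map p := List.mem_map.2 ⟨n, List.mem_range.2 hnm, rfl⟩
      rw [if_pos hmem, ih']; omega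
    · have hnmem : p n ∉ (List.range m).map p := by
        intro hmem
        obtain ⟨k, hk, hk2⟩ := List.mem_map.1 hmem
        rw [List.mem_range] at hk
        exact inj k n (by omega) hn hk2
      rw [if_neg hnmem]
      by_cases hnm2 : n = m
      · subst hnm2; simp
      · have : p m ≠ p n := inj m n (by omega) hn
        simp [this]
        omega

theorem allowed_true {p : ℕ → ℕ} {t : Fin 4 → Fin 4 → ℕ} (h : PathSeq p t) (m : ℕ)
    (hm : m < 16) (a b : ℕ) (ha : a = p m / 4) (hb : b = p m % 4) :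
    allowed ((List.range m).map p) a b = true := by
  have hv : 4 * a + b = p m := by omega
  unfold allowed
  rw [hv]
  simp only [Bool.and_eq_true, Bool.not_eq_true', List.all_eq_true, List.any_eq_true,
    List.mem_range, beq_iff_eq]
  refine ⟨⟨?_, ?_⟩, ?_⟩
  · rw [Bool.eq_false_iff]
    intro hc
    rw [List.contains_iff_mem] at hc
    obtain ⟨k, hk, hk2⟩ := List.mem_map.1 hc
    rw [List.mem_range] at hk
    exact h.inj k m hk hm hk2
  · intro x hx
    obtain ⟨k, hk, hk2⟩ := h.canR m hm x (by omega)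
    exact ⟨p k, List.mem_map.2 ⟨k, List.mem_range.2 hk, rfl⟩, hk2⟩
  · intro x hx
    obtain ⟨k, hk, hk2⟩ := h.canC m hm x (by omega)
    exact ⟨p k, List.mem_map.2 ⟨k, List.mem_range.2 hk, rfl⟩, hk2⟩

theorem check_sound {p : ℕ → ℕ} (h : Real4 A B G D c d z t) (hp : PathSeq p t) :
    ∀ (C : Cert) (m : ℕ), 1 ≤ m → m ≤ 16 →
      check C ((List.range m).map p) (p (m - 1) / 4) (p (m - 1) % 4) = true → False := by
  intro C
  induction C with
  | O => intro m _ _ hc; exact absurd hc (by simp [check])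
  | F w =>
    intro m h1 h16 hc
    have hlen : ((List.range m).map p).length = m := by simp
    rw [check, hlen] at hc
    refine viol_false h _ m w ?_ hc
    intro i j
    unfold pos
    rw [← hp.p_t, idxOf_map_range p hp.inj (t i j) (hp.t_lt i j) m h16]
  | N r0 r1 r2 r3 c0 c1 c2 c3 ir0 ir1 ir2 ir3 ic0 ic1 ic2 ic3 =>
    intro m h1 h16 hc
    have hlen : ((List.range m).map p).length = m := by simp
    have happ : ∀ v, v = p m → (List.range m).map p ++ [v] = (List.range (m + 1)).map p := by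
      intro v hv; rw [List.range_succ, List.map_append, hv]; rfl
    simp only [check, hlen, Bool.and_eq_true, decide_eq_true_eq] at hc
    obtain ⟨⟨⟨⟨⟨⟨⟨⟨hm, h0⟩, h1'⟩, h2⟩, h3⟩, h4⟩, h5⟩, h6⟩, h7⟩ := hc
    have hadj := hp.adj (m - 1) (by omega)
    have e1 : m - 1 + 1 = m := by omega
    rw [e1] at hadj
    have hlt := hp.lt16 m hm
    have step : ∀ (C' : Cert) (a b : ℕ), a = p m / 4 → b = p m % 4 →
        (!(allowed ((List.range m).map p) a b) ||
          check C' ((List.range m).map p ++ [4 * a + b]) a b) = true →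
        check C' ((List.range (m + 1)).map p) (p (m + 1 - 1) / 4) (p (m + 1 - 1) % 4) = true := by
      intro C' a b ha hb hh
      rw [allowed_true hp m hm a b ha hb, happ _ (by omega)] at hh
      have e2 : m + 1 - 1 = m := by omega
      rw [e2, ← ha, ← hb]
      simpa using hh
    rcases hadj with hrow | hcol
    · -- column move
      have hb4 : p m % 4 < 4 := Nat.mod_lt _ (by norm_num)
      rcases (show p m % 4 = 0 ∨ p m % 4 = 1 ∨ p m % 4 = 2 ∨ p m % 4 = 3 by omega) with
        hb | hb | hb | hb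
      · exact ic0 (m + 1) (by omega) (by omega) (step _ _ _ hrow hb.symm h4)
      · exact ic1 (m + 1) (by omega) (by omega) (step _ _ _ hrow hb.symm h5)
      · exact ic2 (m + 1) (by omega) (by omega) (step _ _ _ hrow hb.symm h6)
      · exact ic3 (m + 1) (by omega) (by omega) (step _ _ _ hrow hb.symm h7)
    · rcases (show p m / 4 = 0 ∨ p m / 4 = 1 ∨ p m / 4 = 2 ∨ p m / 4 = 3 by omega) with
        hb | hb | hb | hb
      · exact ir0 (m + 1) (by omega) (by omega) (step _ _ _ hb.symm hcol h0)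
      · exact ir1 (m + 1) (by omega) (by omega) (step _ _ _ hb.symm hcol h1')
      · exact ir2 (m + 1) (by omega) (by omega) (step _ _ _ hb.symm hcol h2)
      · exact ir3 (m + 1) (by omega) (by omega) (step _ _ _ hb.symm hcol h3)

end Pool.Agent.W300.SvD
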