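import Pool.Agent.W300.SvD.Cert44

/-!
There is no Hamiltonian Dantzig path on the product of two 3-simplices (algebraic form).
-/

namespace Pool.Agent.W300.SvD

/-- first visit order -/
theorem exists_canon (f : ℕ → Fin 4) (hf : ∀ i, ∃ n, n < 16 ∧ f n = i) :
    ∃ σ : Equiv.Perm (Fin 4), ∀ n, n < 16 → ∀ x : ℕ, x < (σ.symm (f n)).val →
      ∃ m, m < n ∧ (σ.symm (f m)).val = x := by
  classical
  let r : Fin 4 → ℕ := fun i => Nat.find (hf i)
  have hr : ∀ i, r i < 16 ∧ f (r i) = i := fun i => Nat.find_spec (hf i)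
  have hrmin : ∀ n, n < 16 → r (f n) ≤ n := fun n hn => Nat.find_min' (hf (f n)) ⟨hn, rfl⟩
  have hinj : Function.Injective r := by
    intro a b hab
    have h1 := (hr a).2
    have h2 := (hr b).2
    rw [hab] at h1
    exact h1.symm.trans h2
  refine ⟨Tuple.sort r, ?_⟩
  have hmono : Monotone (r ∘ Tuple.sort r) := Tuple.monotone_sort r
  have hstrict : StrictMono (r ∘ Tuple.sort r) :=
    hmono.strictMono_of_injective (hinj.comp (Tuple.sort r).injective)
  intro n hn x hx
  have hx4 : x < 4 := lt_of_lt_of_le hx (Nat.le_of_lt ((Tuple.sort r).symm (f n)).isLt)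
  let y : Fin 4 := ⟨x, hx4⟩
  have hy : y < (Tuple.sort r).symm (f n) := hx
  have h1 := hstrict hy
  simp only [Function.comp_apply, Equiv.apply_symm_apply] at h1
  refine ⟨r (Tuple.sort r y), lt_of_lt_of_le h1 (hrmin n hn), ?_⟩
  rw [(hr _).2, Equiv.symm_apply_apply]

/-- The core theorem: no Hamiltonian Dantzig path. -/
theorem core {A B G D c d : Fin 4 → ℝ} {z : Fin 4 → Fin 4 → ℝ} (q : ℕ → Fin 4 × Fin 4)
    (hW : ∀ i j, 0 < A i + B j)
    (hz : ∀ i j, z i j * (A i + B j) = G i + D j)
    (hc : ∀ i, 0 < c i) (hd : ∀ i, 0 < d i)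
    (hmono : ∀ n, n + 1 < 16 → z (q n).1 (q n).2 < z (q (n + 1)).1 (q (n + 1)).2)
    (hsurj : ∀ i j, ∃ n, n < 16 ∧ q n = (i, j))
    (hadj : ∀ n, n + 1 < 16 → (q n).1 = (q (n + 1)).1 ∨ (q n).2 = (q (n + 1)).2)
    (hcc : ∀ n, n + 1 < 16 → ∀ i j l l', q n = (i, j) → q (n + 1) = (i, l) → l' ≠ j →
      d l' * ((A i + B l') * (z i l' - z i j)) ≤ d l * ((A i + B l) * (z i l - z i j)))
    (hcr : ∀ n, n + 1 < 16 → ∀ i j l k, q n = (i, j) → q (n + 1) = (i, l) → k ≠ i →
      c k * ((A k + B j) * (z k j - z i j)) ≤ d l * ((A i + B l) * (z i l - z i j)))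
    (hrr : ∀ n, n + 1 < 16 → ∀ i j k k', q n = (i, j) → q (n + 1) = (k, j) → k' ≠ i →
      c k' * ((A k' + B j) * (z k' j - z i j)) ≤ c k * ((A k + B j) * (z k j - z i j)))
    (hrc : ∀ n, n + 1 < 16 → ∀ i j k l, q n = (i, j) → q (n + 1) = (k, j) → l ≠ j →
      d l * ((A i + B l) * (z i l - z i j)) ≤ c k * ((A k + B j) * (z k j - z i j))) :
    False := by
  classical
  -- strict monotonicity
  have hlt : ∀ m n, m < n → n < 16 → z (q m).1 (q m).2 < z (q n).1 (q n).2 := by
    intro m n hmn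
    induction n with
    | zero => omega
    | succ n ih =>
      intro hn
      rcases Nat.lt_succ_iff_lt_or_eq.1 hmn with h | h
      · exact (ih h (by omega)).trans (hmono n hn)
      · subst h; exact hmono m hn
  choose t ht16 htq using hsurj
  obtain ⟨σ, hσ⟩ := exists_canon (fun n => (q n).1) (fun i => ⟨t i 0, ht16 i 0, by
    simp only [htq]⟩)
  obtain ⟨ρ, hρ⟩ := exists_canon (fun n => (q n).2) (fun i => ⟨t 0 i, ht16 0 i, by
    simp only [htq]⟩)
  have zlt : ∀ i j k l, t i j < t k l → z i j < z k l := by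
    intro i j k l h
    have := hlt _ _ h (ht16 k l)
    rwa [htq, htq] at this
  have zle : ∀ i j k l, t i j ≤ t k l → z i j ≤ z k l := by
    intro i j k l h
    rcases h.lt_or_eq with h | h
    · exact (zlt _ _ _ _ h).le
    · have h1 := htq i j
      have h2 := htq k l
      rw [h] at h1
      have := h1.symm.trans h2
      rw [Prod.mk.injEq] at this
      rw [this.1, this.2]
  have hR : Real4 (A ∘ σ) (B ∘ ρ) (G ∘ σ) (D ∘ ρ) (c ∘ σ) (d ∘ ρ)
      (fun i j => z (σ i) (ρ j)) (fun i j => t (σ i) (ρ j)) := by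
    refine ⟨fun i j => hW _ _, fun i j => hz _ _, fun i => hc _, fun i => hd _,
      fun i j k l h => zlt _ _ _ _ h, fun i j k l h => zle _ _ _ _ h, ?_, ?_, ?_, ?_⟩
    · intro i j l l' hh hne
      have h16 := ht16 (σ i) (ρ l)
      exact hcc (t (σ i) (ρ j)) (by omega) _ _ _ _ (htq _ _) (by rw [← hh]; exact htq _ _)
        (fun h => hne (ρ.injective h))
    · intro i j l k hh hne
      have h16 := ht16 (σ i) (ρ l)
      exact hcr (t (σ i) (ρ j)) (by omega) _ _ _ _ (htq _ _) (by rw [← hh]; exact htq _ _)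
        (fun h => hne (σ.injective h))
    · intro i j k k' hh hne
      have h16 := ht16 (σ k) (ρ j)
      exact hrr (t (σ i) (ρ j)) (by omega) _ _ _ _ (htq _ _) (by rw [← hh]; exact htq _ _)
        (fun h => hne (σ.injective h))
    · intro i j k l hh hne
      have h16 := ht16 (σ k) (ρ j)
      exact hrc (t (σ i) (ρ j)) (by omega) _ _ _ _ (htq _ _) (by rw [← hh]; exact htq _ _)
        (fun h => hne (ρ.injective h))
  have hdiv : ∀ a b : Fin 4, (4 * a.val + b.val) / 4 = a.val := fun a b => by omega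
  have hmod : ∀ a b : Fin 4, (4 * a.val + b.val) % 4 = b.val := fun a b => by omega
  have hP : PathSeq (fun n => 4 * (σ.symm (q n).1).val + (ρ.symm (q n).2).val)
      (fun i j => t (σ i) (ρ j)) := by
    refine ⟨?_, ?_, ?_, ?_, ?_, ?_, ?_⟩
    · intro n _
      have h1 := (σ.symm (q n).1).isLt
      have h2 := (ρ.symm (q n).2).isLt
      omega
    · intro m n hmn hn heq
      have h1 := congrArg (· / 4) heq
      have h2 := congrArg (· % 4) heq
      simp only [hdiv, hmod] at h1 h2
      have e1 : (q m).1 = (q n).1 := σ.symm.injective (Fin.ext h1)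
      have e2 : (q m).2 = (q n).2 := ρ.symm.injective (Fin.ext h2)
      have := hlt m n hmn hn
      rw [e1, e2] at this
      exact lt_irrefl _ this
    · intro i j; exact ht16 _ _
    · intro i j
      simp only [htq, Equiv.symm_apply_apply]
    · intro n hn
      simp only [hdiv, hmod]
      rcases hadj n hn with h | h
      · left; rw [h]
      · right; rw [h]
    · intro n hn x hx
      simp only [hdiv] at hx ⊢
      exact hσ n hn x hx
    · intro n hn x hx
      simp only [hmod] at hx ⊢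
      exact hρ n hn x hx
  exact no_canonical hR hP

end Pool.Agent.W300.SvD
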