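import Mathlib

/-!
Definitions: simple polytopes, steep paths, simplex (Dantzig) paths, and the maxima
`M(ζ,d,n)` and `M(τ,d,n)`.
-/

namespace Pool.Agent.W300.SvD

/-- The polyhedron in `ℝ^d` cut out by the `n` affine inequalities `a i x ≥ 0`. -/
def poly {d n : ℕ} (a : Fin n → EuclideanSpace ℝ (Fin d) →ᵃ[ℝ] ℝ) :
    Set (EuclideanSpace ℝ (Fin d)) := {x | ∀ i, 0 ≤ a i x}

/-- `poly a` is a simple `d`-polytope with exactly `n` facets: it is bounded, has interior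
points, none of the `n` inequalities can be dropped (so that the facets are the `n` sets
`{x ∈ poly a | a i x = 0}`), and every vertex lies in exactly `d` facets. The function `a i` is
then one of the admissible functions `φ_F` for the facet `F = {x ∈ poly a | a i x = 0}`, and
every admissible choice of the `φ_F` arises in this way from some `a` with the same `poly a`. -/
structure IsSimplePolytope {d n : ℕ} (a : Fin n → EuclideanSpace ℝ (Fin d) →ᵃ[ℝ] ℝ) :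
    Prop where
  bounded : Bornology.IsBounded (poly a)
  fullDim : (interior (poly a)).Nonempty
  irredundant : ∀ i, ∃ x, a i x < 0 ∧ ∀ j, j ≠ i → 0 ≤ a j x
  simple : ∀ x ∈ (poly a).extremePoints ℝ, {i | a i x = 0}.ncard = d

/-- `x` and `w` are adjacent vertices of `P`: distinct vertices whose segment is a face. -/
def Adj {d : ℕ} (P : Set (EuclideanSpace ℝ (Fin d))) (x w : EuclideanSpace ℝ (Fin d)) : Prop :=
  x ∈ P.extremePoints ℝ ∧ w ∈ P.extremePoints ℝ ∧ x ≠ w ∧ IsExposed ℝ P (segment ℝ x w)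

/-- `(x 0, …, x k)` is a `φ`-path on `poly a`. -/
structure IsPath {d n : ℕ} (a : Fin n → EuclideanSpace ℝ (Fin d) →ᵃ[ℝ] ℝ)
    (φ : EuclideanSpace ℝ (Fin d) →ₗ[ℝ] ℝ) (k : ℕ) (x : ℕ → EuclideanSpace ℝ (Fin d)) :
    Prop where
  start : x 0 ∈ (poly a).extremePoints ℝ
  adj : ∀ i < k, Adj (poly a) (x i) (x (i + 1))
  incr : ∀ i < k, φ (x i) < φ (x (i + 1))

/-- `(x 0, …, x k)` is a steep path: each step maximizes the Euclidean slope among all
adjacent vertices. -/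
def IsSteepPath {d n : ℕ} (a : Fin n → EuclideanSpace ℝ (Fin d) →ᵃ[ℝ] ℝ)
    (φ : EuclideanSpace ℝ (Fin d) →ₗ[ℝ] ℝ) (k : ℕ) (x : ℕ → EuclideanSpace ℝ (Fin d)) : Prop :=
  IsPath a φ k x ∧ ∀ i < k, ∀ w, Adj (poly a) (x i) w →
    (φ w - φ (x i)) / ‖w - x i‖ ≤ (φ (x (i + 1)) - φ (x i)) / ‖x (i + 1) - x i‖

/-- `r` is the nonbasic gradient `(φ w - φ x) / φ^{x,w}(w)`, where `φ^{x,w} = a i` with
`a i x = 0 < a i w`. -/
def IsGrad {d n : ℕ} (a : Fin n → EuclideanSpace ℝ (Fin d) →ᵃ[ℝ] ℝ)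
    (φ : EuclideanSpace ℝ (Fin d) →ₗ[ℝ] ℝ) (x w : EuclideanSpace ℝ (Fin d)) (r : ℝ) : Prop :=
  ∃ i, a i x = 0 ∧ 0 < a i w ∧ r = (φ w - φ x) / a i w

/-- `(x 0, …, x k)` is a simplex path (for Dantzig's rule, relative to the family `a`): each
step maximizes the nonbasic gradient among all adjacent vertices, and this maximum is
positive. -/
def IsSimplexPath {d n : ℕ} (a : Fin n → EuclideanSpace ℝ (Fin d) →ᵃ[ℝ] ℝ)
    (φ : EuclideanSpace ℝ (Fin d) →ₗ[ℝ] ℝ) (k : ℕ) (x : ℕ → EuclideanSpace ℝ (Fin d)) : Prop :=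
  IsPath a φ k x ∧ ∀ i < k, ∃ s, IsGrad a φ (x i) (x (i + 1)) s ∧ 0 < s ∧
    ∀ w r, Adj (poly a) (x i) w → IsGrad a φ (x i) w r → r ≤ s

/-- `M(ζ,d,n)`: the largest length of a steep path on a simple `d`-polytope with `n` facets. -/
noncomputable def steepMax (d n : ℕ) : ℕ∞ :=
  ⨆ (a : Fin n → EuclideanSpace ℝ (Fin d) →ᵃ[ℝ] ℝ) (_ : IsSimplePolytope a)
    (φ : EuclideanSpace ℝ (Fin d) →ₗ[ℝ] ℝ) (k : ℕ) (x : ℕ → EuclideanSpace ℝ (Fin d))
    (_ : IsSteepPath a φ k x), (k : ℕ∞)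

/-- `M(τ,d,n)`: the largest length of a simplex path on a simple `d`-polytope with `n` facets. -/
noncomputable def simplexMax (d n : ℕ) : ℕ∞ :=
  ⨆ (a : Fin n → EuclideanSpace ℝ (Fin d) →ᵃ[ℝ] ℝ) (_ : IsSimplePolytope a)
    (φ : EuclideanSpace ℝ (Fin d) →ₗ[ℝ] ℝ) (k : ℕ) (x : ℕ → EuclideanSpace ℝ (Fin d))
    (_ : IsSimplexPath a φ k x), (k : ℕ∞)

end Pool.Agent.W300.SvD
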