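import Pool.Agent.W300.SvD.Grid

/-!
The explicit simple 6-polytope with 8 facets carrying a steep path with 15 edges: integer data.
-/

namespace Pool.Agent.W300.SvD.Ex

/-- homogeneous vectors: `bas i` for the four rows, `bas (4 + j)` for the four columns -/
def bas : Fin 8 → Fin 7 → ℤ := ![
    ![0, 0, 0, 0, 0, 0, 0],
    ![10, -10, 0, 0, 0, 0, 0],
    ![88, -1500, -1300, -1400, 0, 0, 0],
    ![160, -4483300000, 1744000000, 369780000, -573610000, -5872000000, 0],
    ![10, 0, 0, 0, 0, 0, 0],
    ![12, -19, -14, 0, 0, 0, 0],
    ![55, -151000, 115000, -219000, -154000, 0, 0],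
    ![76, -18585418910000000000, 24146684300000000000, -13019457970000000000, 30114356170000000000, -24885660790000000000, -46837436120000000000]]

/-- the facet functionals in homogeneous coordinates -/
def aZ : Fin 8 → Fin 7 → ℤ := ![
    ![64855376258438920000000000, 129710752516877840000000000, -166770967521700080000000000, 20422825625871684400000000, -280744579319339819300000000, -119855402331070853278487500, -259949114905430545664088519],
    ![0, -64855376258438920000000000, 88018010636452820000000000, -12243106742664490000000000, 146730346849739445000000000, 60554541665812569815625000, 136682464683357778271093750],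
    ![0, 0, 0, -463252687560278000000000, 658781419322733000000000, -93526088001320244375000, 602029872506608666093750],
    ![0, 0, 0, 0, 0, -110448529050475000, 58683498850418750],
    ![64855376258438920000000000, 64855376258438920000000000, -32427688129219460000000000, -35299854792093183600000000, -37585134446246061500000000, -57699924631346519247337500, -26148994975740565713229109],
    ![0, 0, -46325268756027800000000000, 43016320987740100000000000, -95766105215962850000000000, -1694873624444396906250000, -96512699002016318023437500],
    ![0, 0, 0, 0, -4211388068729800000000, 411392082783395875000, -2926313125776125968750],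
    ![0, 0, 0, 0, 0, 0, -13846910]]

/-- common denominator -/
def Dl : ℤ := 648553762584389200000000000

/-- the objective -/
def gZ : Fin 6 → ℤ := ![10000000, 64000000, 190000000, 452000000, 1158400000, 2506406007]

/-- rows -/
def ro : Fin 4 → Fin 8 := ![0, 1, 2, 3]

/-- columns -/
def co : Fin 4 → Fin 8 := ![4, 5, 6, 7]

/-- the path -/
def path : Fin 16 → Fin 4 × Fin 4 := ![(0, 3), (1, 3), (2, 3), (3, 3), (3, 0), (3, 1), (3, 2), (0, 2), (1, 2), (2, 2), (2, 0), (2, 1), (0, 1), (1, 1), (1, 0), (0, 0)]

/-- points violating one inequality only -/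
def ptZ : Fin 8 → Fin 7 → ℤ := ![
    ![8524, -1839956472090000001000, 2390521745700000000000, -1288926339030000000000, 2981321260830000000000, -2463680418210000000000, -4636906175880000000000],
    ![16314, -1839956472090000149990, 2390521745699999870000, -1288926339030000140000, 2981321260830000000000, -2463680418210000000000, -4636906175880000000000],
    ![23436, -1839956472538329998500, 2390521745874400001300, -1288926338993021998600, 2981321260772639000000, -2463680418797200000000, -4636906175880000000000],
    ![7364, -1839956472085516700000, 2390521745698256000000, -1288926339030369780000, 2981321260830573610000, -2463680418204128000000, -4636906175880000000000],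
    ![17030, -443846701900, 172655998600, 36608220000, -56787390000, -581328000000, 0],
    ![21328, -443861799981, 172667500014, 36586320000, -56802790000, -581328000000, 0],
    ![23385, -1858541891443846549000, 2414668430172655885000, -1301945796963391561000, 3011435616943212764000, -2488566079581328000000, -4683743612000000000000],
    ![16764, 18585418466153300000, -24146684127344000000, 13019458006608220000, -30114356226787390000, 24885660208672000000, 46837436120000000000]]

/-- homogeneous vertices -/
def hZ (p : Fin 4 × Fin 4) (m : Fin 7) : ℤ := bas (ro p.1) m + bas (co p.2) m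

/-- numerator of the slope -/
def ZN (p q : Fin 7 → ℤ) : ℤ := ∑ m : Fin 6, gZ m * (q m.succ * p 0 - p m.succ * q 0)

/-- squared denominator of the slope -/
def ZQ (p q : Fin 7 → ℤ) : ℤ := ∑ m : Fin 6, (q m.succ * p 0 - p m.succ * q 0) ^ 2

set_option maxRecDepth 100000 in
theorem dual_ok : ∀ n m : Fin 7, ∑ F, bas F n * aZ F m = if n = m then Dl else 0 := by
  decide +kernel

set_option maxRecDepth 100000 in
theorem rel_ok : ∀ m : Fin 7, ∑ i, aZ (ro i) m = ∑ j, aZ (co j) m := by
  decide +kernel

set_option maxRecDepth 100000 in
theorem val_ok : ∀ (p : Fin 4 × Fin 4) (F : Fin 8), ∑ m, aZ F m * hZ p m =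
    if F = ro p.1 ∨ F = co p.2 then Dl else 0 := by
  decide +kernel

set_option maxRecDepth 100000 in
theorem wt_ok : ∀ p : Fin 4 × Fin 4, 0 < hZ p 0 := by
  decide +kernel

set_option maxRecDepth 100000 in
theorem pt_ok : ∀ F : Fin 8, 0 < ptZ F 0 ∧ ∑ m, aZ F m * ptZ F m < 0 ∧
    ∀ E : Fin 8, E ≠ F → 0 ≤ ∑ m, aZ E m * ptZ F m := by
  decide +kernel

/-- an interior point in homogeneous coordinates -/
def cen (m : Fin 7) : ℤ := ∑ F, bas F m

set_option maxRecDepth 100000 in
theorem cen_ok : 0 < cen 0 ∧ ∀ F : Fin 8, 0 < ∑ m, aZ F m * cen m := by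
  decide +kernel

set_option maxRecDepth 100000 in
theorem basw_ok : (∀ i, 0 ≤ bas (ro i) 0) ∧ ∀ j, 1 ≤ bas (co j) 0 := by
  decide +kernel

set_option maxRecDepth 100000 in
theorem step_ok : ∀ n : Fin 15,
    ((path n.castSucc).1 = (path n.succ).1 ∧ (path n.castSucc).2 ≠ (path n.succ).2 ∨
      (path n.castSucc).2 = (path n.succ).2 ∧ (path n.castSucc).1 ≠ (path n.succ).1) ∧
    0 < ZN (hZ (path n.castSucc)) (hZ (path n.succ)) ∧
    0 < ZQ (hZ (path n.castSucc)) (hZ (path n.succ)) := by
  decide +kernel

set_option maxRecDepth 100000 in
theorem steep_ok : ∀ n : Fin 15, ∀ p : Fin 4 × Fin 4,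
    (p.1 = (path n.castSucc).1 ∨ p.2 = (path n.castSucc).2) → p ≠ path n.castSucc →
    0 < ZQ (hZ (path n.castSucc)) (hZ p) ∧
    (ZN (hZ (path n.castSucc)) (hZ p) ≤ 0 ∨
      ZN (hZ (path n.castSucc)) (hZ p) ^ 2 * ZQ (hZ (path n.castSucc)) (hZ (path n.succ)) ≤
      ZN (hZ (path n.castSucc)) (hZ (path n.succ)) ^ 2 * ZQ (hZ (path n.castSucc)) (hZ p)) := by
  decide +kernel

end Pool.Agent.W300.SvD.Ex
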