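import Pool.Agent.W300.SvD.Frame

/-!
From a simple polytope with `d + 2` facets to a frame.
-/

namespace Pool.Agent.W300.SvD

variable {d n : ℕ}

theorem aff_add (f : EuclideanSpace ℝ (Fin d) →ᵃ[ℝ] ℝ) (x v : EuclideanSpace ℝ (Fin d)) :
    f (x + v) = f x + f.linear v := by
  have := f.map_vadd x v
  simp only [vadd_eq_add] at this
  rw [add_comm x v, this, add_comm]

/-- The active functionals at a vertex have trivial joint kernel. -/
theorem vertex_ker {a : Fin n → EuclideanSpace ℝ (Fin d) →ᵃ[ℝ] ℝ}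
    {x : EuclideanSpace ℝ (Fin d)} (hx : x ∈ (poly a).extremePoints ℝ)
    {v : EuclideanSpace ℝ (Fin d)} (hv : ∀ F, a F x = 0 → (a F).linear v = 0) : v = 0 := by
  have key : ∀ F, ∀ᶠ ε in nhds (0 : ℝ), 0 ≤ a F x + ε * (a F).linear v ∧
      0 ≤ a F x + (-ε) * (a F).linear v := by
    intro F
    by_cases h0 : a F x = 0
    · rw [hv F h0, h0]; simp
    · have hpos : 0 < a F x := lt_of_le_of_ne (hx.1 F) (Ne.symm h0)
      have c1 : ContinuousAt (fun ε : ℝ => a F x + ε * (a F).linear v) 0 := by fun_prop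
      have c2 : ContinuousAt (fun ε : ℝ => a F x + (-ε) * (a F).linear v) 0 := by fun_prop
      have e1 := c1.eventually (lt_mem_nhds (show (0 : ℝ) < a F x + 0 * (a F).linear v by
        simpa using hpos))
      have e2 := c2.eventually (lt_mem_nhds (show (0 : ℝ) < a F x + (-0) * (a F).linear v by
        simpa using hpos))
      filter_upwards [e1, e2] with ε h1 h2 using ⟨h1.le, h2.le⟩
  have hall := Filter.eventually_all.2 key
  have h2 : ∀ᶠ ε in nhdsWithin (0 : ℝ) (Set.Ioi 0), ∀ F, 0 ≤ a F x + ε * (a F).linear v ∧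
      0 ≤ a F x + (-ε) * (a F).linear v := hall.filter_mono nhdsWithin_le_nhds
  obtain ⟨ε, hε, hεpos⟩ := (h2.and self_mem_nhdsWithin).exists
  have hεpos' : 0 < ε := hεpos
  have m1 : x + ε • v ∈ poly a := by
    intro F; rw [aff_add, map_smul, smul_eq_mul]; exact (hε F).1
  have m2 : x + (-ε) • v ∈ poly a := by
    intro F; rw [aff_add, map_smul, smul_eq_mul]; exact (hε F).2
  have hmem : x ∈ openSegment ℝ (x + ε • v) (x + (-ε) • v) := by
    refine ⟨1 / 2, 1 / 2, by norm_num, by norm_num, by norm_num, ?_⟩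
    module
  have := hx.2 m1 m2 hmem
  have h3 : ε • v = 0 := by simpa using this
  exact (smul_eq_zero.1 h3).resolve_left hεpos'.ne'

/-- A relation supported on the active functionals of a simple vertex is trivial. -/
theorem rel_trivial {a : Fin n → EuclideanSpace ℝ (Fin d) →ᵃ[ℝ] ℝ}
    {x : EuclideanSpace ℝ (Fin d)} (hx : x ∈ (poly a).extremePoints ℝ)
    (hs : {i | a i x = 0}.ncard = d) {c : Fin n → ℝ} (hc : ∀ y, ∑ F, c F * a F y = 0)
    (h0 : ∀ F, a F x ≠ 0 → c F = 0) : ∀ F, c F = 0 := by
  classical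
  let S := {F : Fin n // a F x = 0}
  have hcard : Fintype.card S = d := by
    refine Eq.trans ?_ hs
    rw [Set.ncard_eq_toFinset_card', Fintype.card_subtype]
    congr 1
    ext F; simp
  let M : EuclideanSpace ℝ (Fin d) →ₗ[ℝ] (S → ℝ) := LinearMap.pi (fun F => (a F.1).linear)
  have hinj : Function.Injective M := by
    rw [← LinearMap.ker_eq_bot, LinearMap.ker_eq_bot']
    intro v hv
    apply vertex_ker hx
    intro F hF
    exact congrFun hv ⟨F, hF⟩
  have hsurj : Function.Surjective M := by
    refine (LinearMap.injective_iff_surjective_of_finrank_eq_finrank ?_).1 hinj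
    rw [Module.finrank_fintype_fun_eq_card, hcard, finrank_euclideanSpace_fin]
  intro F
  by_cases hF : a F x = 0
  · obtain ⟨v, hv⟩ := hsurj (Pi.single ⟨F, hF⟩ 1)
    have h1 := hc (x + v)
    have h2 := hc x
    have h3 : ∑ G, c G * (a G).linear v = 0 := by
      have : ∑ G, c G * (a G).linear v = ∑ G, c G * a G (x + v) - ∑ G, c G * a G x := by
        rw [← Finset.sum_sub_distrib]
        refine Finset.sum_congr rfl (fun G _ => ?_)
        rw [aff_add]; ring
      rw [this, h1, h2, sub_zero]
    have h4 : ∑ G, c G * (a G).linear v = c F := by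
      rw [Finset.sum_eq_single F]
      · have : (a F).linear v = 1 := by
          have := congrFun hv ⟨F, hF⟩
          simpa [M] using this
        rw [this, mul_one]
      · intro G _ hGF
        by_cases hG : a G x = 0
        · have : (a G).linear v = 0 := by
            have := congrFun hv ⟨G, hG⟩
            rw [Pi.single_eq_of_ne] at this
            · simpa [M] using this
            · intro h; exact hGF (congrArg Subtype.val h)
          rw [this, mul_zero]
        · rw [h0 G hG, zero_mul]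
      · intro h; exact absurd (Finset.mem_univ F) h
    rw [← h4, h3]
  · exact h0 F hF

/-- homogenisation of an affine functional -/
noncomputable def hom (f : EuclideanSpace ℝ (Fin d) →ᵃ[ℝ] ℝ) :
    (ℝ × EuclideanSpace ℝ (Fin d)) →ₗ[ℝ] ℝ :=
  (LinearMap.toSpanSingleton ℝ ℝ (f 0)) ∘ₗ LinearMap.fst ℝ ℝ _ +
    f.linear ∘ₗ LinearMap.snd ℝ ℝ _

theorem hom_apply (f : EuclideanSpace ℝ (Fin d) →ᵃ[ℝ] ℝ) (w : ℝ)
    (v : EuclideanSpace ℝ (Fin d)) : hom f (w, v) = w * f 0 + f.linear v := by
  simp [hom]

theorem hom_one (f : EuclideanSpace ℝ (Fin d) →ᵃ[ℝ] ℝ)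
    (v : EuclideanSpace ℝ (Fin d)) : hom f (1, v) = f v := by
  rw [hom_apply, one_mul, ← aff_add, zero_add]

/-- The homogenised functionals have trivial joint kernel. -/
theorem hom_ker {a : Fin (d + 2) → EuclideanSpace ℝ (Fin d) →ᵃ[ℝ] ℝ}
    (hsimple : ∀ x ∈ (poly a).extremePoints ℝ, {i | a i x = 0}.ncard = d)
    {x0 : EuclideanSpace ℝ (Fin d)} (hx0 : x0 ∈ (poly a).extremePoints ℝ)
    (p : ℝ × EuclideanSpace ℝ (Fin d)) (hp : ∀ F, hom (a F) p = 0) : p = 0 := by
  obtain ⟨w, v⟩ := p
  simp only [hom_apply] at hp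
  by_cases hw : w = 0
  · subst hw
    have : v = 0 := by
      apply vertex_ker hx0
      intro F _
      have := hp F
      simpa using this
    rw [this]; rfl
  · exfalso
    let y : EuclideanSpace ℝ (Fin d) := w⁻¹ • v
    have hy : ∀ F, a F y = 0 := by
      intro F
      have h1 : a F y = a F 0 + w⁻¹ * (a F).linear v := by
        have := aff_add (a F) 0 y
        rw [zero_add] at this
        rw [this, map_smul, smul_eq_mul]
      have h2 := hp F
      rw [h1]
      field_simp
      linarith
    have hyext : y ∈ (poly a).extremePoints ℝ := by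
      refine ⟨fun F => (hy F).ge, ?_⟩
      intro p hp' q hq hpq
      obtain ⟨s, t, hs, ht, hst, hsum⟩ := hpq
      have hpz : ∀ F, a F p = 0 := by
        intro F
        have h := hy F
        rw [← hsum, aff_comb _ _ _ hst] at h
        have h3 := mul_nonneg hs.le (hp' F)
        have h4 := mul_nonneg ht.le (hq F)
        have h5 : s * a F p = 0 := by linarith
        exact (mul_eq_zero.1 h5).resolve_left hs.ne'
      have : p - y = 0 := by
        apply vertex_ker hx0
        intro F _
        have h := aff_add (a F) y (p - y)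
        rw [add_sub_cancel, hpz F, hy F] at h
        linarith
      exact sub_eq_zero.1 this
    have h1 := hsimple y hyext
    have h2 : {i | a i y = 0} = Set.univ := by
      ext i; simp [hy i]
    rw [h2, Set.ncard_univ, Nat.card_fin] at h1
    omega

/-- Extraction of a frame. -/
theorem exists_frame {a : Fin (d + 2) → EuclideanSpace ℝ (Fin d) →ᵃ[ℝ] ℝ}
    (hsimple : ∀ x ∈ (poly a).extremePoints ℝ, {i | a i x = 0}.ncard = d)
    {x0 : EuclideanSpace ℝ (Fin d)} (hx0 : x0 ∈ (poly a).extremePoints ℝ) :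
    ∃ c α : Fin (d + 2) → ℝ, Frame a c α ∧
      (∀ x ∈ (poly a).extremePoints ℝ, ∃ i j, 0 < c i ∧ c j < 0 ∧
        (∀ F, F ≠ i → F ≠ j → a F x = 0) ∧ 0 < a i x ∧ 0 < a j x) ∧
      ∀ φ : EuclideanSpace ℝ (Fin d) →ₗ[ℝ] ℝ, ∃ g : Fin (d + 2) → ℝ,
        ∀ x, φ x = ∑ F, g F * a F x := by
  classical
  have hker := hom_ker hsimple hx0
  -- representation of functionals
  have hspan : ∀ ψ : (ℝ × EuclideanSpace ℝ (Fin d)) →ₗ[ℝ] ℝ, ∃ g : Fin (d + 2) → ℝ,
      ∀ p, ψ p = ∑ F, g F * hom (a F) p := by
    intro ψ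
    have hle : (⨅ F, LinearMap.ker (hom (a F))) ≤ LinearMap.ker ψ := by
      intro p hp
      rw [Submodule.mem_iInf] at hp
      have : p = 0 := hker p (fun F => LinearMap.mem_ker.1 (hp F))
      rw [this]; exact Submodule.zero_mem _
    have hmem := mem_span_of_iInf_ker_le_ker hle
    obtain ⟨g, hg⟩ := (Submodule.mem_span_range_iff_exists_fun ℝ).1 hmem
    refine ⟨g, fun p => ?_⟩
    rw [← hg, LinearMap.sum_apply]
    rfl
  obtain ⟨α, hα⟩ := hspan (LinearMap.fst ℝ ℝ _)
  have hone : ∀ x, ∑ F, α F * a F x = 1 := by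
    intro x
    have := hα (1, x)
    simp only [hom_one, LinearMap.fst_apply] at this
    exact this.symm
  have hphi : ∀ φ : EuclideanSpace ℝ (Fin d) →ₗ[ℝ] ℝ, ∃ g : Fin (d + 2) → ℝ,
      ∀ x, φ x = ∑ F, g F * a F x := by
    intro φ
    obtain ⟨g, hg⟩ := hspan (φ ∘ₗ LinearMap.snd ℝ ℝ _)
    refine ⟨g, fun x => ?_⟩
    have := hg (1, x)
    simpa only [hom_one, LinearMap.comp_apply, LinearMap.snd_apply] using this
  -- injectivity
  have hinj : ∀ x y, (∀ F, a F x = a F y) → x = y := by
    intro x y hxy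
    have h := hker (0, x - y) (fun F => by
      rw [hom_apply, zero_mul, zero_add]
      have h := aff_add (a F) y (x - y)
      rw [add_sub_cancel, hxy F] at h
      linarith)
    have h2 := congrArg Prod.snd h
    exact sub_eq_zero.1 h2
  -- relation
  let T : (Fin (d + 2) → ℝ) →ₗ[ℝ] Module.Dual ℝ (ℝ × EuclideanSpace ℝ (Fin d)) :=
    Fintype.linearCombination ℝ (fun F => hom (a F))
  have hT : ∀ c, T c = ∑ F, c F • hom (a F) := fun c => by
    simp only [T, Fintype.linearCombination_apply]
  have hTker : LinearMap.ker T ≠ ⊥ := by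
    apply LinearMap.ker_ne_bot_of_finrank_lt
    rw [Subspace.dual_finrank_eq, Module.finrank_prod, Module.finrank_self,
      finrank_euclideanSpace_fin, Module.finrank_fintype_fun_eq_card, Fintype.card_fin]
    omega
  obtain ⟨c, hcT, hc0⟩ := (Submodule.ne_bot_iff _).1 hTker
  have hrel : ∀ x, ∑ F, c F * a F x = 0 := by
    intro x
    have h1 : T c = 0 := LinearMap.mem_ker.1 hcT
    rw [hT] at h1
    have h2 := LinearMap.congr_fun h1 (1, x)
    rw [LinearMap.sum_apply] at h2
    simpa only [LinearMap.smul_apply, hom_one, smul_eq_mul, LinearMap.zero_apply] using h2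
  refine ⟨c, α, ⟨hrel, hone, hinj⟩, ?_, hphi⟩
  intro x hx
  -- the nonzero set has two elements
  have hcardc : {i | a i x ≠ 0}.ncard = 2 := by
    have h1 := Set.ncard_add_ncard_compl {i | a i x = 0}
    rw [hsimple x hx, Nat.card_fin] at h1
    have h2 : {i | a i x = 0}ᶜ = {i | a i x ≠ 0} := by ext i; simp
    rw [h2] at h1
    omega
  obtain ⟨i, j, hij, hset⟩ := Set.ncard_eq_two.1 hcardc
  have hi : a i x ≠ 0 := by
    have : i ∈ {i | a i x ≠ 0} := by rw [hset]; simp
    exact this
  have hj : a j x ≠ 0 := by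
    have : j ∈ {i | a i x ≠ 0} := by rw [hset]; simp
    exact this
  have hz : ∀ F, F ≠ i → F ≠ j → a F x = 0 := by
    intro F h1 h2
    by_contra h3
    have : F ∈ {i | a i x ≠ 0} := h3
    rw [hset] at this
    rcases this with h | h
    · exact h1 h
    · exact h2 h
  have hip : 0 < a i x := lt_of_le_of_ne (hx.1 i) (Ne.symm hi)
  have hjp : 0 < a j x := lt_of_le_of_ne (hx.1 j) (Ne.symm hj)
  have hr : c i * a i x + c j * a j x = 0 := by
    have := hrel x
    rw [Fintype.sum_eq_add i j hij] at this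
    · exact this
    · rintro F ⟨h1, h2⟩; rw [hz F h1 h2, mul_zero]
  have hci : c i ≠ 0 := by
    intro h
    have hcj : c j = 0 := by
      rw [h, zero_mul, zero_add] at hr
      exact (mul_eq_zero.1 hr).resolve_right hj
    apply hc0
    funext F
    apply rel_trivial hx (hsimple x hx) hrel
    intro G hG
    have : G ∈ {i | a i x ≠ 0} := hG
    rw [hset] at this
    rcases this with h' | h'
    · rw [h']; exact h
    · rw [h']; exact hcj
  rcases lt_or_gt_of_ne hci with h | h
  · have : 0 < c j := by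
      by_contra hcon
      push Not at hcon
      have h1 : c i * a i x < 0 := mul_neg_of_neg_of_pos h hip
      have h2 : c j * a j x ≤ 0 := mul_nonpos_of_nonpos_of_nonneg hcon hjp.le
      linarith
    exact ⟨j, i, this, h, fun F h1 h2 => hz F h2 h1, hjp, hip⟩
  · have : c j < 0 := by
      by_contra hcon
      push Not at hcon
      have h1 : 0 < c i * a i x := mul_pos h hip
      have h2 : 0 ≤ c j * a j x := mul_nonneg hcon hjp.le
      linarith
    exact ⟨i, j, h, this, hz, hip, hjp⟩

end Pool.Agent.W300.SvD
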