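import Pool.Agent.W300.SvD.Defs

/-!
Frames: relation and normalisation of the facet functionals of a simple `d`-polytope with
`d + 2` facets; edges.
-/

namespace Pool.Agent.W300.SvD

variable {d n : ℕ}

/-- A linear relation `c`, a representation `α` of the constant `1`, and joint injectivity. -/
structure Frame (a : Fin n → EuclideanSpace ℝ (Fin d) →ᵃ[ℝ] ℝ) (c α : Fin n → ℝ) : Prop where
  rel : ∀ x, ∑ F, c F * a F x = 0
  one : ∀ x, ∑ F, α F * a F x = 1
  inj : ∀ x y, (∀ F, a F x = a F y) → x = y

variable {a : Fin n → EuclideanSpace ℝ (Fin d) →ᵃ[ℝ] ℝ} {c α : Fin n → ℝ}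

theorem sum3 {f : Fin n → ℝ} {i k j : Fin n} (hik : i ≠ k) (hij : i ≠ j) (hkj : k ≠ j)
    (hf : ∀ F, F ≠ i → F ≠ k → F ≠ j → f F = 0) : ∑ F, f F = f i + f k + f j := by
  classical
  have h : ∑ F ∈ ({i, k, j} : Finset (Fin n)), f F = ∑ F, f F := by
    apply Finset.sum_subset (Finset.subset_univ _)
    intro F _ hF
    simp only [Finset.mem_insert, Finset.mem_singleton, not_or] at hF
    exact hf F hF.1 hF.2.1 hF.2.2
  rw [← h, Finset.sum_insert (by simp [hik, hij]), Finset.sum_insert (by simp [hkj]),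
    Finset.sum_singleton, add_assoc]

theorem aff_comb (f : EuclideanSpace ℝ (Fin d) →ᵃ[ℝ] ℝ) (u w : EuclideanSpace ℝ (Fin d))
    {s t : ℝ} (h : s + t = 1) : f (s • u + t • w) = s * f u + t * f w := by
  have := Convex.combo_affine_apply (f := f) (x := u) (y := w) h
  simpa using this

theorem Frame.two_rel (hf : Frame a c α) {i j : Fin n} (hij : i ≠ j)
    {u : EuclideanSpace ℝ (Fin d)} (hu : ∀ F, F ≠ i → F ≠ j → a F u = 0) :
    c i * a i u + c j * a j u = 0 := by
  have := hf.rel u
  rw [Fintype.sum_eq_add i j hij] at this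
  · exact this
  · rintro F ⟨h1, h2⟩; rw [hu F h1 h2, mul_zero]

theorem Frame.two_one (hf : Frame a c α) {i j : Fin n} (hij : i ≠ j)
    {u : EuclideanSpace ℝ (Fin d)} (hu : ∀ F, F ≠ i → F ≠ j → a F u = 0) :
    α i * a i u + α j * a j u = 1 := by
  have := hf.one u
  rw [Fintype.sum_eq_add i j hij] at this
  · exact this
  · rintro F ⟨h1, h2⟩; rw [hu F h1 h2, mul_zero]

/-- A point is determined by its two nonzero coordinates. -/
theorem Frame.two_unique (hf : Frame a c α) {i j : Fin n} (hij : i ≠ j) (hcj : c j ≠ 0)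
    {u w : EuclideanSpace ℝ (Fin d)} (hu : ∀ F, F ≠ i → F ≠ j → a F u = 0)
    (hw : ∀ F, F ≠ i → F ≠ j → a F w = 0) : u = w := by
  have r1 := hf.two_rel hij hu
  have r2 := hf.two_rel hij hw
  have o1 := hf.two_one hij hu
  have o2 := hf.two_one hij hw
  have hj : c j * (a j u * a i w - a j w * a i u) = 0 := by
    linear_combination a i w * r1 - a i u * r2
  have hj2 : a j u * a i w = a j w * a i u := by
    rcases mul_eq_zero.1 hj with h | h
    · exact absurd h hcj
    · linarith
  have e1 : a i u = a i w := by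
    have h1 : (α i * a i u + α j * a j u) * a i w = (α i * a i w + α j * a j w) * a i u := by
      linear_combination α j * hj2
    rw [o1, o2] at h1; linarith
  have e2 : a j u = a j w := by
    have h1 : c j * (a j u - a j w) = 0 := by rw [e1] at r1; linear_combination r1 - r2
    rcases mul_eq_zero.1 h1 with h | h
    · exact absurd h hcj
    · linarith
  refine hf.inj _ _ (fun F => ?_)
  by_cases h1 : F = i
  · rw [h1, e1]
  · by_cases h2 : F = j
    · rw [h2, e2]
    · rw [hu F h1 h2, hw F h1 h2]

/-- A point of the polyhedron whose nonzero coordinates are two is a vertex. -/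
theorem Frame.extreme (hf : Frame a c α) {i j : Fin n} (hij : i ≠ j) (hcj : c j ≠ 0)
    {u : EuclideanSpace ℝ (Fin d)} (hu : ∀ F, F ≠ i → F ≠ j → a F u = 0)
    (hui : 0 ≤ a i u) (huj : 0 ≤ a j u) : u ∈ (poly a).extremePoints ℝ := by
  have huP : u ∈ poly a := by
    intro F
    by_cases h1 : F = i
    · rw [h1]; exact hui
    · by_cases h2 : F = j
      · rw [h2]; exact huj
      · rw [hu F h1 h2]
  refine ⟨huP, ?_⟩
  intro y hy z hz hyz
  obtain ⟨s, t, hs, ht, hst, rfl⟩ := hyz
  have hzero : ∀ F, F ≠ i → F ≠ j → a F y = 0 := by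
    intro F h1 h2
    have h := hu F h1 h2
    rw [aff_comb _ _ _ hst] at h
    have h3 := mul_nonneg hs.le (hy F)
    have h4 := mul_nonneg ht.le (hz F)
    have h5 : s * a F y = 0 := by linarith
    rcases mul_eq_zero.1 h5 with h6 | h6
    · exact absurd h6 hs.ne'
    · exact h6
  exact hf.two_unique hij hcj hzero hu

/-- Two vertices sharing a nonzero coordinate are joined by an exposed edge. -/
theorem Frame.edge (hf : Frame a c α) {i k j : Fin n} (hik : i ≠ k) (hij : i ≠ j) (hkj : k ≠ j)
    (hcj : c j ≠ 0) {u w : EuclideanSpace ℝ (Fin d)}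
    (hu : ∀ F, F ≠ i → F ≠ j → a F u = 0) (hui : 0 < a i u) (huj : 0 ≤ a j u)
    (hw : ∀ F, F ≠ k → F ≠ j → a F w = 0) (hwk : 0 < a k w) (hwj : 0 ≤ a j w) :
    IsExposed ℝ (poly a) (segment ℝ u w) := by
  classical
  have huP : u ∈ poly a := by
    intro F
    by_cases h1 : F = i
    · rw [h1]; exact hui.le
    · by_cases h2 : F = j
      · rw [h2]; exact huj
      · rw [hu F h1 h2]
  have hwP : w ∈ poly a := by
    intro F
    by_cases h1 : F = k
    · rw [h1]; exact hwk.le
    · by_cases h2 : F = j
      · rw [h2]; exact hwj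
      · rw [hw F h1 h2]
  intro _
  let T : Finset (Fin n) := Finset.univ.filter (fun F => F ≠ i ∧ F ≠ k ∧ F ≠ j)
  let L : EuclideanSpace ℝ (Fin d) →ₗ[ℝ] ℝ := -∑ F ∈ T, (a F).linear
  refine ⟨LinearMap.toContinuousLinearMap L, ?_⟩
  have hL : ∀ y, L y = -(∑ F ∈ T, a F y) + ∑ F ∈ T, a F 0 := by
    intro y
    simp only [L, LinearMap.neg_apply, LinearMap.sum_apply]
    have : ∀ F, (a F).linear y = a F y - a F 0 := by
      intro F
      have := (a F).decomp'
      have h2 := congrFun this y
      simp only [Pi.sub_apply] at h2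
      exact h2
    simp only [this, Finset.sum_sub_distrib]
    ring
  ext x
  simp only [Set.mem_ofPred_eq, LinearMap.coe_toContinuousLinearMap']
  constructor
  · rintro ⟨s, t, hs, ht, hst, rfl⟩
    have hz : ∀ F ∈ T, a F (s • u + t • w) = 0 := by
      intro F hF
      simp only [T, Finset.mem_filter, Finset.mem_univ, true_and] at hF
      rw [aff_comb _ _ _ hst, hu F hF.1 hF.2.2, hw F hF.2.1 hF.2.2]; simp
    refine ⟨?_, ?_⟩
    · intro F
      rw [aff_comb _ _ _ hst]
      exact add_nonneg (mul_nonneg hs (huP F)) (mul_nonneg ht (hwP F))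
    · intro y hy
      rw [hL, hL, Finset.sum_eq_zero hz]
      have : 0 ≤ ∑ F ∈ T, a F y := Finset.sum_nonneg (fun F _ => hy F)
      linarith
  · rintro ⟨hx, hmax⟩
    have hm1 := hmax u huP
    rw [hL, hL] at hm1
    have hu0 : ∑ F ∈ T, a F u = 0 := by
      apply Finset.sum_eq_zero
      intro F hF
      simp only [T, Finset.mem_filter, Finset.mem_univ, true_and] at hF
      exact hu F hF.1 hF.2.2
    have hx0 : ∑ F ∈ T, a F x = 0 := by
      have h2 : 0 ≤ ∑ F ∈ T, a F x := Finset.sum_nonneg (fun F _ => hx F)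
      linarith
    have hxz : ∀ F, F ≠ i → F ≠ k → F ≠ j → a F x = 0 := by
      intro F hi hk hj
      exact (Finset.sum_eq_zero_iff_of_nonneg (fun F _ => hx F)).1 hx0 F
        (by simp only [T, Finset.mem_filter, Finset.mem_univ, true_and]; exact ⟨hi, hk, hj⟩)
    have rx : c i * a i x + c k * a k x + c j * a j x = 0 := by
      have := hf.rel x
      rwa [sum3 hik hij hkj] at this
      intro F hi hk hj; rw [hxz F hi hk hj, mul_zero]
    have ox : α i * a i x + α k * a k x + α j * a j x = 1 := by
      have := hf.one x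
      rwa [sum3 hik hij hkj] at this
      intro F hi hk hj; rw [hxz F hi hk hj, mul_zero]
    have ru := hf.two_rel hij hu
    have ou := hf.two_one hij hu
    have rw' := hf.two_rel hkj hw
    have ow := hf.two_one hkj hw
    set s := a i x / a i u with hs
    set t := a k x / a k w with ht
    have es : s * a i u = a i x := div_mul_cancel₀ _ hui.ne'
    have et : t * a k w = a k x := div_mul_cancel₀ _ hwk.ne'
    have hj0 : c j * (a j x - (s * a j u + t * a j w)) = 0 := by
      linear_combination rx - s * ru - t * rw' + c i * es + c k * et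
    have hj1 : a j x = s * a j u + t * a j w := by
      rcases mul_eq_zero.1 hj0 with h | h
      · exact absurd h hcj
      · linarith
    have hst : s + t = 1 := by
      rw [← ox, hj1, ← es, ← et]
      linear_combination -s * ou - t * ow
    refine ⟨s, t, div_nonneg (hx i) hui.le, div_nonneg (hx k) hwk.le, hst, ?_⟩
    refine hf.inj _ _ (fun F => ?_)
    rw [aff_comb _ _ _ hst]
    by_cases h1 : F = i
    · subst h1; rw [hw F hik hij, ← es]; ring
    · by_cases h2 : F = k
      · subst h2; rw [hu F h1 hkj, ← et]; ring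
      · by_cases h3 : F = j
        · rw [h3, hj1]
        · rw [hu F h1 h3, hw F h2 h3, hxz F h1 h2 h3]; ring

end Pool.Agent.W300.SvD
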