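import Pool.Agent.W300.SvD.Frame

/-!
Grids: simple polytopes combinatorially equal to a product of two 3-simplices.
-/

namespace Pool.Agent.W300.SvD

/-- A frame whose functionals are labelled by four rows and four columns, with all the
sixteen vertices. -/
structure Grid (a : Fin 8 → EuclideanSpace ℝ (Fin 6) →ᵃ[ℝ] ℝ) (c α : Fin 8 → ℝ)
    (ro co : Fin 4 → Fin 8) (v : Fin 4 → Fin 4 → EuclideanSpace ℝ (Fin 6)) : Prop where
  fr : Frame a c α
  cpos : ∀ i, 0 < c (ro i)
  cneg : ∀ j, c (co j) < 0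
  cover : ∀ F, (∃ i, F = ro i) ∨ ∃ j, F = co j
  ro_inj : Function.Injective ro
  co_inj : Function.Injective co
  vz : ∀ i j F, F ≠ ro i → F ≠ co j → a F (v i j) = 0
  vr : ∀ i j, 0 < a (ro i) (v i j)
  vc : ∀ i j, 0 < a (co j) (v i j)

variable {a : Fin 8 → EuclideanSpace ℝ (Fin 6) →ᵃ[ℝ] ℝ} {c α : Fin 8 → ℝ}
  {ro co : Fin 4 → Fin 8} {v : Fin 4 → Fin 4 → EuclideanSpace ℝ (Fin 6)}

namespace Grid

theorem ro_ne_co (h : Grid a c α ro co v) (i j : Fin 4) : ro i ≠ co j := by
  intro e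
  have h1 := h.cpos i
  have h2 := h.cneg j
  rw [e] at h1
  linarith

/-- row weight -/
noncomputable def RA (c α : Fin 8 → ℝ) (ro : Fin 4 → Fin 8) (i : Fin 4) : ℝ :=
  α (ro i) / c (ro i)

/-- column weight -/
noncomputable def CB (c α : Fin 8 → ℝ) (co : Fin 4 → Fin 8) (j : Fin 4) : ℝ :=
  -(α (co j) / c (co j))

/-- the value `σ` at the vertex -/
theorem sigma_eq (h : Grid a c α ro co v) (i j : Fin 4) :
    c (ro i) * a (ro i) (v i j) = -(c (co j) * a (co j) (v i j)) := by
  have := h.fr.two_rel (h.ro_ne_co i j) (h.vz i j)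
  linarith

theorem sigma_pos (h : Grid a c α ro co v) (i j : Fin 4) :
    0 < c (ro i) * a (ro i) (v i j) := mul_pos (h.cpos i) (h.vr i j)

theorem comb_mul (h : Grid a c α ro co v) (g : Fin 8 → ℝ) (i j : Fin 4) :
    (g (ro i) / c (ro i) + -(g (co j) / c (co j))) * (c (ro i) * a (ro i) (v i j))
      = ∑ F, g F * a F (v i j) := by
  rw [Fintype.sum_eq_add (ro i) (co j) (h.ro_ne_co i j)]
  · have e := h.sigma_eq i j
    have h1 := (h.cpos i).ne'
    have h2 := (h.cneg j).ne
    rw [add_mul]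
    congr 1
    · field_simp
    · rw [e]; field_simp
  · rintro F ⟨h1, h2⟩; rw [h.vz i j F h1 h2, mul_zero]

theorem W_mul (h : Grid a c α ro co v) (i j : Fin 4) :
    (RA c α ro i + CB c α co j) * (c (ro i) * a (ro i) (v i j)) = 1 := by
  rw [RA, CB, h.comb_mul α i j, h.fr.one]

theorem W_pos (h : Grid a c α ro co v) (i j : Fin 4) : 0 < RA c α ro i + CB c α co j := by
  have h1 := h.W_mul i j
  have h2 := h.sigma_pos i j
  by_contra hcon
  push Not at hcon
  have := mul_nonpos_of_nonpos_of_nonneg hcon h2.le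
  linarith

theorem a_row (h : Grid a c α ro co v) (i j : Fin 4) :
    a (ro i) (v i j) = 1 / (c (ro i) * (RA c α ro i + CB c α co j)) := by
  have h1 := h.W_mul i j
  have h2 := (h.cpos i).ne'
  have h3 := (h.W_pos i j).ne'
  rw [eq_div_iff (mul_ne_zero h2 h3)]
  linarith

theorem a_col (h : Grid a c α ro co v) (i j : Fin 4) :
    a (co j) (v i j) = 1 / (-c (co j) * (RA c α ro i + CB c α co j)) := by
  have h1 := h.W_mul i j
  rw [h.sigma_eq] at h1
  have h2 : -c (co j) ≠ 0 := by have := h.cneg j; linarith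
  have h3 := (h.W_pos i j).ne'
  rw [eq_div_iff (mul_ne_zero h2 h3)]
  linarith

theorem mem_extreme (h : Grid a c α ro co v) (i j : Fin 4) :
    v i j ∈ (poly a).extremePoints ℝ :=
  h.fr.extreme (h.ro_ne_co i j) (h.cneg j).ne (h.vz i j) (h.vr i j).le (h.vc i j).le

theorem mem_poly (h : Grid a c α ro co v) (i j : Fin 4) : v i j ∈ poly a := (h.mem_extreme i j).1

/-- weighted values of the functionals at vertices -/
theorem row_val (h : Grid a c α ro co v) (i j p : Fin 4) :
    (RA c α ro i + CB c α co j) * a (ro p) (v i j) = if p = i then 1 / c (ro p) else 0 := by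
  split_ifs with hp
  · subst hp
    rw [h.a_row]
    have h2 := (h.cpos p).ne'
    have h3 := (h.W_pos p j).ne'
    field_simp
  · rw [h.vz i j (ro p) (fun e => hp (h.ro_inj e)) (h.ro_ne_co p j), mul_zero]

theorem col_val (h : Grid a c α ro co v) (i j p : Fin 4) :
    (RA c α ro i + CB c α co j) * a (co p) (v i j) = if p = j then 1 / (-c (co p)) else 0 := by
  split_ifs with hp
  · subst hp
    rw [h.a_col]
    have h2 : -c (co p) ≠ 0 := by have := h.cneg p; linarith
    have h3 := (h.W_pos i p).ne'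
    field_simp
  · rw [h.vz i j (co p) (h.ro_ne_co i p).symm (fun e => hp (h.co_inj e)), mul_zero]

/-- Diagonal pairs are not edges. -/
theorem not_edge (h : Grid a c α ro co v) {i j k l : Fin 4} (hik : i ≠ k) (hjl : j ≠ l) :
    ¬ IsExposed ℝ (poly a) (segment ℝ (v i j) (v k l)) := by
  intro hexp
  have hE := hexp.isExtreme
  set Wij := RA c α ro i + CB c α co j with hWij
  set Wkl := RA c α ro k + CB c α co l with hWkl
  set Wil := RA c α ro i + CB c α co l with hWil
  set Wkj := RA c α ro k + CB c α co j with hWkj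
  have pij : 0 < Wij := h.W_pos i j
  have pkl : 0 < Wkl := h.W_pos k l
  have pil : 0 < Wil := h.W_pos i l
  have pkj : 0 < Wkj := h.W_pos k j
  have hS : Wij + Wkl = Wil + Wkj := by rw [hWij, hWkl, hWil, hWkj]; ring
  set S := Wij + Wkl with hSdef
  have pS : 0 < S := add_pos pij pkl
  have s1 : Wij / S + Wkl / S = 1 := by rw [← add_div, ← hSdef, div_self pS.ne']
  have s2 : Wil / S + Wkj / S = 1 := by rw [← add_div, ← hS, div_self pS.ne']
  have hm : (Wij / S) • v i j + (Wkl / S) • v k l = (Wil / S) • v i l + (Wkj / S) • v k j := by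
    refine h.fr.inj _ _ (fun F => ?_)
    rw [aff_comb _ _ _ s1, aff_comb _ _ _ s2]
    have e : ∀ x y : ℝ, x / S * y = (x * y) / S := fun x y => by ring
    rw [e, e, e, e, ← add_div, ← add_div]
    congr 1
    rcases h.cover F with ⟨p, rfl⟩ | ⟨p, rfl⟩
    · rw [h.row_val i j p, h.row_val k l p, h.row_val i l p, h.row_val k j p]
    · rw [h.col_val i j p, h.col_val k l p, h.col_val i l p, h.col_val k j p]
      ring
  have hmem : (Wij / S) • v i j + (Wkl / S) • v k l ∈ segment ℝ (v i j) (v k l) :=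
    ⟨_, _, (div_pos pij pS).le, (div_pos pkl pS).le, s1, rfl⟩
  have hopen : (Wij / S) • v i j + (Wkl / S) • v k l ∈ openSegment ℝ (v i l) (v k j) := by
    rw [hm]; exact ⟨_, _, div_pos pil pS, div_pos pkj pS, s2, rfl⟩
  have hil := hE.left_mem_of_mem_openSegment (h.mem_poly i l) (h.mem_poly k j) hmem hopen
  obtain ⟨s, t, hs, ht, hst, hsum⟩ := hil
  have e1 := congrArg (a (ro k)) hsum
  rw [aff_comb _ _ _ hst, h.vz i j (ro k) (fun e => hik (h.ro_inj e).symm) (h.ro_ne_co k j),
    h.vz i l (ro k) (fun e => hik (h.ro_inj e).symm) (h.ro_ne_co k l), mul_zero, zero_add] at e1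
  have ht0 : t = 0 := (mul_eq_zero.1 e1).resolve_right (h.vr k l).ne'
  have e2 := congrArg (a (co l)) hsum
  rw [aff_comb _ _ _ hst, ht0, h.vz i j (co l) (h.ro_ne_co i l).symm
    (fun e => hjl (h.co_inj e).symm), mul_zero, zero_mul, zero_add] at e2
  have := h.vc i l
  linarith

theorem v_ne (h : Grid a c α ro co v) {i j k l : Fin 4} (hne : i ≠ k ∨ j ≠ l) :
    v i j ≠ v k l := by
  intro e
  rcases hne with hik | hjl
  · have h1 := h.vr i j
    rw [e, h.vz k l (ro i) (fun e => hik (h.ro_inj e)) (h.ro_ne_co i l)] at h1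
    exact lt_irrefl _ h1
  · have h1 := h.vc i j
    rw [e, h.vz k l (co j) (h.ro_ne_co k j).symm (fun e => hjl (h.co_inj e))] at h1
    exact lt_irrefl _ h1

theorem adj_row (h : Grid a c α ro co v) {i k : Fin 4} (hik : i ≠ k) (j : Fin 4) :
    Adj (poly a) (v i j) (v k j) :=
  ⟨h.mem_extreme i j, h.mem_extreme k j, h.v_ne (Or.inl hik),
    h.fr.edge (fun e => hik (h.ro_inj e)) (h.ro_ne_co i j) (h.ro_ne_co k j) (h.cneg j).ne
      (h.vz i j) (h.vr i j) (h.vc i j).le (h.vz k j) (h.vr k j) (h.vc k j).le⟩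

theorem adj_col (h : Grid a c α ro co v) (i : Fin 4) {j l : Fin 4} (hjl : j ≠ l) :
    Adj (poly a) (v i j) (v i l) :=
  ⟨h.mem_extreme i j, h.mem_extreme i l, h.v_ne (Or.inr hjl),
    h.fr.edge (fun e => hjl (h.co_inj e)) (h.ro_ne_co i j).symm (h.ro_ne_co i l).symm
      (h.cpos i).ne' (fun F h1 h2 => h.vz i j F h2 h1) (h.vc i j) (h.vr i j).le
      (fun F h1 h2 => h.vz i l F h2 h1) (h.vc i l) (h.vr i l).le⟩

theorem adj_share (h : Grid a c α ro co v) {i j k l : Fin 4}
    (hadj : Adj (poly a) (v i j) (v k l)) : i = k ∨ j = l := by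
  by_contra hcon
  push Not at hcon
  exact h.not_edge hcon.1 hcon.2 hadj.2.2.2

/-- All vertices are grid vertices. -/
theorem extreme_eq (h : Grid a c α ro co v) {x : EuclideanSpace ℝ (Fin 6)}
    (hx : x ∈ (poly a).extremePoints ℝ) : ∃ i j, x = v i j := by
  have hxP := hx.1
  -- a positive row coordinate
  have hall0 : ¬ ∀ F, a F x = 0 := by
    intro h0
    have := h.fr.one x
    simp only [h0, mul_zero, Finset.sum_const_zero] at this
    exact zero_ne_one this
  have hrow : ∃ i, 0 < a (ro i) x := by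
    by_contra hcon
    push Not at hcon
    have hz : ∀ i, a (ro i) x = 0 := fun i => le_antisymm (hcon i) (hxP _)
    apply hall0
    have hnp : ∀ F ∈ (Finset.univ : Finset (Fin 8)), c F * a F x ≤ 0 := by
      intro F _
      rcases h.cover F with ⟨i, rfl⟩ | ⟨j, rfl⟩
      · rw [hz i, mul_zero]
      · exact mul_nonpos_of_nonpos_of_nonneg (h.cneg j).le (hxP _)
    have hzero := (Finset.sum_eq_zero_iff_of_nonpos hnp).1 (h.fr.rel x)
    intro F
    rcases h.cover F with ⟨i, rfl⟩ | ⟨j, rfl⟩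
    · exact hz i
    · exact (mul_eq_zero.1 (hzero _ (Finset.mem_univ _))).resolve_left (h.cneg j).ne
  have hcol : ∃ j, 0 < a (co j) x := by
    by_contra hcon
    push Not at hcon
    have hz : ∀ i, a (co i) x = 0 := fun i => le_antisymm (hcon i) (hxP _)
    apply hall0
    have hnp : ∀ F ∈ (Finset.univ : Finset (Fin 8)), 0 ≤ c F * a F x := by
      intro F _
      rcases h.cover F with ⟨i, rfl⟩ | ⟨j, rfl⟩
      · exact mul_nonneg (h.cpos i).le (hxP _)
      · rw [hz j, mul_zero]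
    have hzero := (Finset.sum_eq_zero_iff_of_nonneg hnp).1 (h.fr.rel x)
    intro F
    rcases h.cover F with ⟨i, rfl⟩ | ⟨j, rfl⟩
    · exact (mul_eq_zero.1 (hzero _ (Finset.mem_univ _))).resolve_left (h.cpos i).ne'
    · exact hz j
  obtain ⟨i, hi⟩ := hrow
  obtain ⟨j, hj⟩ := hcol
  refine ⟨i, j, ?_⟩
  -- a small multiple
  set P := a (ro i) (v i j) with hP
  set Q := a (co j) (v i j) with hQ
  have pP : 0 < P := h.vr i j
  have pQ : 0 < Q := h.vc i j
  obtain ⟨ε, hε0, hε1, hε2, hε3⟩ : ∃ ε : ℝ, 0 < ε ∧ ε < 1 ∧ ε * P ≤ a (ro i) x ∧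
      ε * Q ≤ a (co j) x := by
    refine ⟨min (1 / 2) (min (a (ro i) x / P) (a (co j) x / Q)), ?_, ?_, ?_, ?_⟩
    · refine lt_min (by norm_num) (lt_min (div_pos hi pP) (div_pos hj pQ))
    · exact lt_of_le_of_lt (min_le_left _ _) (by norm_num)
    · have := (min_le_right (1 / 2) (min (a (ro i) x / P) (a (co j) x / Q))).trans
        (min_le_left _ _)
      exact (le_div_iff₀ pP).1 this
    · have := (min_le_right (1 / 2) (min (a (ro i) x / P) (a (co j) x / Q))).trans
        (min_le_right _ _)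
      exact (le_div_iff₀ pQ).1 this
  have h1ε : 0 < 1 - ε := by linarith
  set y := (1 / (1 - ε)) • x + (-(ε / (1 - ε))) • v i j with hy
  have hsum1 : 1 / (1 - ε) + -(ε / (1 - ε)) = 1 := by
    rw [← sub_eq_add_neg, ← sub_div, div_self h1ε.ne']
  have hyP : y ∈ poly a := by
    intro F
    rw [hy, aff_comb _ _ _ hsum1]
    have e : 1 / (1 - ε) * a F x + -(ε / (1 - ε)) * a F (v i j)
        = (a F x - ε * a F (v i j)) / (1 - ε) := by ring
    rw [e]
    apply div_nonneg _ h1ε.le
    by_cases hF1 : F = ro i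
    · rw [hF1]; linarith
    · by_cases hF2 : F = co j
      · rw [hF2]; linarith
      · rw [h.vz i j F hF1 hF2, mul_zero, sub_zero]; exact hxP F
  have hxo : x ∈ openSegment ℝ (v i j) y := by
    refine ⟨ε, 1 - ε, hε0, h1ε, by ring, ?_⟩
    rw [hy, smul_add, smul_smul, smul_smul]
    have e1 : (1 - ε) * (1 / (1 - ε)) = 1 := by field_simp
    have e2 : (1 - ε) * -(ε / (1 - ε)) = -ε := by field_simp
    rw [e1, e2]
    module
  exact (hx.2 (h.mem_poly i j) hyP hxo).symm

end Grid

end Pool.Agent.W300.SvD
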