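import Pool.Agent.W300.SvD.Core
import Pool.Agent.W300.SvD.Extract
import Pool.Agent.W300.SvD.Grid

/-!
Upper bounds: every path on a simple 6-polytope with 8 facets has at most 15 edges, and
every simplex path has at most 14.
-/

namespace Pool.Agent.W300.SvD

open Grid

section grad

variable {a : Fin 8 → EuclideanSpace ℝ (Fin 6) →ᵃ[ℝ] ℝ} {c α : Fin 8 → ℝ}
  {ro co : Fin 4 → Fin 8} {v : Fin 4 → Fin 4 → EuclideanSpace ℝ (Fin 6)}

theorem Grid.isGrad_col (h : Grid a c α ro co v) (φ : EuclideanSpace ℝ (Fin 6) →ₗ[ℝ] ℝ)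
    (i : Fin 4) {j l : Fin 4} (hjl : l ≠ j) (r : ℝ) :
    IsGrad a φ (v i j) (v i l) r ↔
      r = -c (co l) * ((RA c α ro i + CB c α co l) * (φ (v i l) - φ (v i j))) := by
  have h2 : -c (co l) ≠ 0 := by have := h.cneg l; linarith
  have h3 := (h.W_pos i l).ne'
  have e : (φ (v i l) - φ (v i j)) / a (co l) (v i l)
      = -c (co l) * ((RA c α ro i + CB c α co l) * (φ (v i l) - φ (v i j))) := by
    rw [h.a_col i l]; field_simp
  constructor
  · rintro ⟨F, hF0, hFp, rfl⟩
    have hF : F = co l := by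
      by_contra hne
      by_cases hF1 : F = ro i
      · rw [hF1] at hF0; exact (h.vr i j).ne' hF0
      · rw [h.vz i l F hF1 hne] at hFp; exact lt_irrefl _ hFp
    rw [hF, e]
  · intro hr
    exact ⟨co l, h.vz i j _ (h.ro_ne_co i l).symm (fun e => hjl (h.co_inj e)), h.vc i l,
      by rw [e, hr]⟩

theorem Grid.isGrad_row (h : Grid a c α ro co v) (φ : EuclideanSpace ℝ (Fin 6) →ₗ[ℝ] ℝ)
    {i k : Fin 4} (hik : k ≠ i) (j : Fin 4) (r : ℝ) :
    IsGrad a φ (v i j) (v k j) r ↔
      r = c (ro k) * ((RA c α ro k + CB c α co j) * (φ (v k j) - φ (v i j))) := by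
  have h2 : c (ro k) ≠ 0 := (h.cpos k).ne'
  have h3 := (h.W_pos k j).ne'
  have e : (φ (v k j) - φ (v i j)) / a (ro k) (v k j)
      = c (ro k) * ((RA c α ro k + CB c α co j) * (φ (v k j) - φ (v i j))) := by
    rw [h.a_row k j]; field_simp
  constructor
  · rintro ⟨F, hF0, hFp, rfl⟩
    have hF : F = ro k := by
      by_contra hne
      by_cases hF1 : F = co j
      · rw [hF1] at hF0; exact (h.vc i j).ne' hF0
      · rw [h.vz k j F hne hF1] at hFp; exact lt_irrefl _ hFp
    rw [hF, e]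
  · intro hr
    exact ⟨ro k, h.vz i j _ (fun e => hik (h.ro_inj e)) (h.ro_ne_co k j), h.vr k j,
      by rw [e, hr]⟩

end grad

variable {a : Fin 8 → EuclideanSpace ℝ (Fin 6) →ᵃ[ℝ] ℝ}

theorem IsPath.extreme {φ : EuclideanSpace ℝ (Fin 6) →ₗ[ℝ] ℝ} {k : ℕ}
    {x : ℕ → EuclideanSpace ℝ (Fin 6)} (hp : IsPath a φ k x) :
    ∀ n, n ≤ k → x n ∈ (poly a).extremePoints ℝ := by
  intro n hn
  cases n with
  | zero => exact hp.start
  | succ n => exact (hp.adj n (by omega)).2.1

theorem IsPath.mono {φ : EuclideanSpace ℝ (Fin 6) →ₗ[ℝ] ℝ} {k : ℕ}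
    {x : ℕ → EuclideanSpace ℝ (Fin 6)} (hp : IsPath a φ k x) :
    ∀ m n, m < n → n ≤ k → φ (x m) < φ (x n) := by
  intro m n hmn
  induction n with
  | zero => omega
  | succ n ih =>
    intro hn
    rcases Nat.lt_succ_iff_lt_or_eq.1 hmn with h | h
    · exact (ih h (by omega)).trans (hp.incr n (by omega))
    · subst h; exact hp.incr m (by omega)

theorem IsPath.ne {φ : EuclideanSpace ℝ (Fin 6) →ₗ[ℝ] ℝ} {k : ℕ}
    {x : ℕ → EuclideanSpace ℝ (Fin 6)} (hp : IsPath a φ k x) {m n : ℕ} (hm : m ≤ k) (hn : n ≤ k)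
    (h : x m = x n) : m = n := by
  rcases lt_trichotomy m n with h1 | h1 | h1
  · have := hp.mono m n h1 hn; rw [h] at this; exact absurd this (lt_irrefl _)
  · exact h1
  · have := hp.mono n m h1 hm; rw [h] at this; exact absurd this (lt_irrefl _)

/-- The number of path vertices is at most the number of row-column pairs. -/
theorem card_bound {φ : EuclideanSpace ℝ (Fin 6) →ₗ[ℝ] ℝ} {k : ℕ}
    {x : ℕ → EuclideanSpace ℝ (Fin 6)} (hp : IsPath a φ k x) {c α : Fin 8 → ℝ}
    (hfr : Frame a c α)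
    (hv : ∀ x ∈ (poly a).extremePoints ℝ, ∃ i j, 0 < c i ∧ c j < 0 ∧
        (∀ F, F ≠ i → F ≠ j → a F x = 0) ∧ 0 < a i x ∧ 0 < a j x) :
    k + 1 ≤ (Finset.univ.filter (fun F => 0 < c F)).card *
        (Finset.univ.filter (fun F => c F < 0)).card ∧
      (Finset.univ.filter (fun F => 0 < c F)).card +
        (Finset.univ.filter (fun F => c F < 0)).card ≤ 8 := by
  classical
  constructor
  · have hvn : ∀ n : Fin (k + 1), ∃ p : Fin 8 × Fin 8, 0 < c p.1 ∧ c p.2 < 0 ∧
        (∀ F, F ≠ p.1 → F ≠ p.2 → a F (x n) = 0) := by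
      intro n
      obtain ⟨i, j, h1, h2, h3, _⟩ := hv (x n) (hp.extreme n (by omega))
      exact ⟨(i, j), h1, h2, h3⟩
    choose f hf1 hf2 hf3 using hvn
    rw [← Finset.card_product]
    have hcard : k + 1 = (Finset.univ : Finset (Fin (k + 1))).card := by simp
    rw [hcard]
    apply Finset.card_le_card_of_injOn f
    · intro n _
      simp only [Finset.coe_product, Set.mem_prod, Finset.coe_filter, Finset.mem_univ, true_and,
        Set.mem_ofPred_eq]
      exact ⟨hf1 n, hf2 n⟩
    · intro m _ n _ hmn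
      have hne : (f m).1 ≠ (f m).2 := by
        intro e
        have h1 := hf1 m
        have h2 := hf2 m
        rw [e] at h1
        linarith
      have := hfr.two_unique hne (hf2 m).ne (hf3 m) (by rw [hmn]; exact hf3 n)
      exact Fin.ext (hp.ne (by omega) (by omega) this)
  · rw [← Finset.card_union_of_disjoint]
    · exact (Finset.card_le_univ _).trans (by simp)
    · rw [Finset.disjoint_filter]
      intro F _ h1 h2
      linarith

theorem mul_le_of_add_le {r s : ℕ} (h : r + s ≤ 8) : r * s ≤ 16 := by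
  have hr : r ≤ 8 := by omega
  interval_cases r <;> omega

theorem eq_four {r s : ℕ} (h : r + s ≤ 8) (h16 : 16 ≤ r * s) : r = 4 ∧ s = 4 := by
  have hr : r ≤ 8 := by omega
  interval_cases r <;> omega

/-- Every path on a simple 6-polytope with 8 facets has at most 15 edges. -/
theorem path_le (h : IsSimplePolytope a) {φ : EuclideanSpace ℝ (Fin 6) →ₗ[ℝ] ℝ} {k : ℕ}
    {x : ℕ → EuclideanSpace ℝ (Fin 6)} (hp : IsPath a φ k x) : k ≤ 15 := by
  obtain ⟨c, α, hfr, hv, _⟩ := exists_frame h.simple hp.start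
  obtain ⟨h1, h2⟩ := card_bound hp hfr hv
  have := mul_le_of_add_le h2
  omega

/-- There is no simplex path with 15 edges. -/
theorem no_simplex_path (h : IsSimplePolytope a) {φ : EuclideanSpace ℝ (Fin 6) →ₗ[ℝ] ℝ}
    {x : ℕ → EuclideanSpace ℝ (Fin 6)} (hp : IsSimplexPath a φ 15 x) : False := by
  classical
  obtain ⟨hpath, hD⟩ := hp
  obtain ⟨c, α, hfr, hv, hphi⟩ := exists_frame h.simple hpath.start
  obtain ⟨g, hg⟩ := hphi φ
  obtain ⟨hb1, hb2⟩ := card_bound hpath hfr hv
  obtain ⟨hR4, hC4⟩ := eq_four hb2 (by omega)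
  set R := Finset.univ.filter (fun F => 0 < c F) with hR
  set C := Finset.univ.filter (fun F => c F < 0) with hC
  have eR : R ≃ Fin 4 := R.equivFinOfCardEq hR4
  have eC : C ≃ Fin 4 := C.equivFinOfCardEq hC4
  set ro : Fin 4 → Fin 8 := fun i => (eR.symm i).1 with hro
  set co : Fin 4 → Fin 8 := fun i => (eC.symm i).1 with hco
  have hmR : ∀ F ∈ R, 0 < c F := by
    intro F hF
    rw [hR, Finset.mem_filter] at hF
    exact hF.2
  have hmC : ∀ F ∈ C, c F < 0 := by
    intro F hF
    rw [hC, Finset.mem_filter] at hF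
    exact hF.2
  have hcpos : ∀ i, 0 < c (ro i) := fun i => hmR _ (eR.symm i).2
  have hcneg : ∀ i, c (co i) < 0 := fun i => hmC _ (eC.symm i).2
  have hroinj : Function.Injective ro := by
    intro i j hij
    exact eR.symm.injective (Subtype.ext hij)
  have hcoinj : Function.Injective co := by
    intro i j hij
    exact eC.symm.injective (Subtype.ext hij)
  have hrosurj : ∀ F, 0 < c F → ∃ i, F = ro i := by
    intro F hF
    have hmem : F ∈ R := by rw [hR, Finset.mem_filter]; exact ⟨Finset.mem_univ _, hF⟩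
    exact ⟨eR ⟨F, hmem⟩, by simp only [hro, Equiv.symm_apply_apply]⟩
  have hcosurj : ∀ F, c F < 0 → ∃ i, F = co i := by
    intro F hF
    have hmem : F ∈ C := by rw [hC, Finset.mem_filter]; exact ⟨Finset.mem_univ _, hF⟩
    exact ⟨eC ⟨F, hmem⟩, by simp only [hco, Equiv.symm_apply_apply]⟩
  have hcover : ∀ F, (∃ i, F = ro i) ∨ ∃ j, F = co j := by
    have hdis : Disjoint R C := by
      rw [hR, hC, Finset.disjoint_filter]
      intro F _ h1 h2
      linarith
    have hun : R ∪ C = Finset.univ := by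
      apply Finset.eq_univ_of_card
      rw [Finset.card_union_of_disjoint hdis, hR4, hC4]
      simp
    intro F
    have : F ∈ R ∪ C := by rw [hun]; exact Finset.mem_univ F
    rcases Finset.mem_union.1 this with h1 | h1
    · left
      rw [hR, Finset.mem_filter] at h1
      exact hrosurj F h1.2
    · right
      rw [hC, Finset.mem_filter] at h1
      exact hcosurj F h1.2
  -- labels
  have hlab : ∀ n, ∃ p : Fin 4 × Fin 4, n < 16 →
      (∀ F, F ≠ ro p.1 → F ≠ co p.2 → a F (x n) = 0) ∧ 0 < a (ro p.1) (x n) ∧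
        0 < a (co p.2) (x n) := by
    intro n
    by_cases hn : n < 16
    · obtain ⟨i, j, h1, h2, h3, h4, h5⟩ := hv (x n) (hpath.extreme n (by omega))
      obtain ⟨i', rfl⟩ := hrosurj i h1
      obtain ⟨j', rfl⟩ := hcosurj j h2
      exact ⟨(i', j'), fun _ => ⟨h3, h4, h5⟩⟩
    · exact ⟨(0, 0), fun h => absurd h hn⟩
  choose q hq using hlab
  have hrc : ∀ i j, ro i ≠ co j := by
    intro i j e
    have h1 := hcpos i
    have h2 := hcneg j
    rw [e] at h1
    linarith
  have hqinj : ∀ m n, m < 16 → n < 16 → q m = q n → m = n := by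
    intro m n hm hn hmn
    have h1 := (hq m hm).1
    have h2 := (hq n hn).1
    rw [hmn] at h1
    exact hpath.ne (by omega) (by omega) (hfr.two_unique (hrc _ _) (hcneg _).ne h1 h2)
  have hqsurj : ∀ i j, ∃ n, n < 16 ∧ q n = (i, j) := by
    have hinj : Function.Injective (fun n : Fin 16 => q n) := by
      intro m n hmn
      exact Fin.ext (hqinj m n m.isLt n.isLt hmn)
    have hbij := (Fintype.bijective_iff_injective_and_card (fun n : Fin 16 => q n)).2
      ⟨hinj, by simp⟩
    intro i j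
    obtain ⟨n, hn⟩ := hbij.2 (i, j)
    exact ⟨n, n.isLt, hn⟩
  choose t ht16 htq using hqsurj
  set v : Fin 4 → Fin 4 → EuclideanSpace ℝ (Fin 6) := fun i j => x (t i j) with hvdef
  have hxv : ∀ n, n < 16 → x n = v (q n).1 (q n).2 := by
    intro n hn
    have : t (q n).1 (q n).2 = n := hqinj _ _ (ht16 _ _) hn (htq _ _)
    simp only [hvdef, this]
  have hgrid : Grid a c α ro co v := by
    refine ⟨hfr, hcpos, hcneg, hcover, hroinj, hcoinj, ?_, ?_, ?_⟩
    · intro i j
      have := (hq (t i j) (ht16 i j)).1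
      rw [htq] at this
      exact this
    · intro i j
      have := (hq (t i j) (ht16 i j)).2.1
      rw [htq] at this
      exact this
    · intro i j
      have := (hq (t i j) (ht16 i j)).2.2
      rw [htq] at this
      exact this
  have hcol : ∀ n, n + 1 < 16 → ∀ i j l, q n = (i, j) → q (n + 1) = (i, l) → l ≠ j ∧
      ∃ s, IsGrad a φ (v i j) (v i l) s ∧ ∀ w r, Adj (poly a) (v i j) w →
        IsGrad a φ (v i j) w r → r ≤ s := by
    intro n hn i j l h1 h2
    have e1 : x n = v i j := by rw [hxv n (by omega), h1]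
    have e2 : x (n + 1) = v i l := by rw [hxv (n + 1) (by omega), h2]
    obtain ⟨s, hs1, _, hs3⟩ := hD n (by omega)
    rw [e1, e2] at hs1
    rw [e1] at hs3
    refine ⟨?_, s, hs1, hs3⟩
    rintro rfl
    have := hqinj n (n + 1) (by omega) hn (h1.trans h2.symm)
    omega
  have hrow : ∀ n, n + 1 < 16 → ∀ i j k, q n = (i, j) → q (n + 1) = (k, j) → k ≠ i ∧
      ∃ s, IsGrad a φ (v i j) (v k j) s ∧ ∀ w r, Adj (poly a) (v i j) w →
        IsGrad a φ (v i j) w r → r ≤ s := by
    intro n hn i j k h1 h2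
    have e1 : x n = v i j := by rw [hxv n (by omega), h1]
    have e2 : x (n + 1) = v k j := by rw [hxv (n + 1) (by omega), h2]
    obtain ⟨s, hs1, _, hs3⟩ := hD n (by omega)
    rw [e1, e2] at hs1
    rw [e1] at hs3
    refine ⟨?_, s, hs1, hs3⟩
    rintro rfl
    have := hqinj n (n + 1) (by omega) hn (h1.trans h2.symm)
    omega
  refine core (A := RA c α ro) (B := CB c α co) (G := RA c g ro) (D := CB c g co)
    (c := fun i => c (ro i)) (d := fun j => -c (co j)) (z := fun i j => φ (v i j)) q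
    hgrid.W_pos ?_ hcpos (fun j => by have := hcneg j; linarith) ?_ (fun i j => ⟨t i j, ht16 i j,
      htq i j⟩) ?_ ?_ ?_ ?_ ?_
  · intro i j
    have h1 := hgrid.comb_mul g i j
    have h2 := hgrid.W_mul i j
    rw [← hg] at h1
    have h3 : RA c g ro i + CB c g co j = (g (ro i) / c (ro i) + -(g (co j) / c (co j))) := rfl
    rw [h3, ← h1]
    linear_combination (g (ro i) / c (ro i) + -(g (co j) / c (co j))) * h2
  · intro n hn
    have := hpath.incr n (by omega)
    rw [hxv n (by omega), hxv (n + 1) hn] at this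
    exact this
  · intro n hn
    have := hpath.adj n (by omega)
    rw [hxv n (by omega), hxv (n + 1) hn] at this
    exact hgrid.adj_share this
  · intro n hn i j l l' h1 h2 hne
    obtain ⟨hlj, s, hs1, hs2⟩ := hcol n hn i j l h1 h2
    have h3 := hs2 _ _ (hgrid.adj_col i hne.symm) ((hgrid.isGrad_col φ i hne _).2 rfl)
    rw [(hgrid.isGrad_col φ i hlj s).1 hs1] at h3
    exact h3
  · intro n hn i j l k h1 h2 hne
    obtain ⟨hlj, s, hs1, hs2⟩ := hcol n hn i j l h1 h2
    have h3 := hs2 _ _ (hgrid.adj_row hne.symm j) ((hgrid.isGrad_row φ hne j _).2 rfl)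
    rw [(hgrid.isGrad_col φ i hlj s).1 hs1] at h3
    exact h3
  · intro n hn i j k k' h1 h2 hne
    obtain ⟨hki, s, hs1, hs2⟩ := hrow n hn i j k h1 h2
    have h3 := hs2 _ _ (hgrid.adj_row hne.symm j) ((hgrid.isGrad_row φ hne j _).2 rfl)
    rw [(hgrid.isGrad_row φ hki j s).1 hs1] at h3
    exact h3
  · intro n hn i j k l h1 h2 hne
    obtain ⟨hki, s, hs1, hs2⟩ := hrow n hn i j k h1 h2
    have h3 := hs2 _ _ (hgrid.adj_col i hne.symm) ((hgrid.isGrad_col φ i hne _).2 rfl)
    rw [(hgrid.isGrad_row φ hki j s).1 hs1] at h3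
    exact h3

end Pool.Agent.W300.SvD
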