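import Mathlib

/-!
Patterns for Dantzig paths on a product of two 3-simplices.

The real data: `z i j` is the value of the objective at the vertex `v i j`, where
`z i j * (A i + B j) = G i + D j`; `t i j` is the time at which the path visits `v i j`.
-/

namespace Pool.Agent.W300.SvD

/-- Real data of a Hamiltonian Dantzig path on the product of two 3-simplices. -/
structure Real4 (A B G D c d : Fin 4 → ℝ) (z : Fin 4 → Fin 4 → ℝ) (t : Fin 4 → Fin 4 → ℕ) :
    Prop where
  hW : ∀ i j, 0 < A i + B j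
  hz : ∀ i j, z i j * (A i + B j) = G i + D j
  hc : ∀ i, 0 < c i
  hd : ∀ i, 0 < d i
  hlt : ∀ i j k l, t i j < t k l → z i j < z k l
  hle : ∀ i j k l, t i j ≤ t k l → z i j ≤ z k l
  hcc : ∀ i j l l', t i l = t i j + 1 → l' ≠ j →
    d l' * ((A i + B l') * (z i l' - z i j)) ≤ d l * ((A i + B l) * (z i l - z i j))
  hcr : ∀ i j l k, t i l = t i j + 1 → k ≠ i →
    c k * ((A k + B j) * (z k j - z i j)) ≤ d l * ((A i + B l) * (z i l - z i j))
  hrr : ∀ i j k k', t k j = t i j + 1 → k' ≠ i →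
    c k' * ((A k' + B j) * (z k' j - z i j)) ≤ c k * ((A k + B j) * (z k j - z i j))
  hrc : ∀ i j k l, t k j = t i j + 1 → l ≠ j →
    d l * ((A i + B l) * (z i l - z i j)) ≤ c k * ((A k + B j) * (z k j - z i j))

variable {A B G D c d : Fin 4 → ℝ} {z : Fin 4 → Fin 4 → ℝ} {t : Fin 4 → Fin 4 → ℕ}

theorem Real4.swap (h : Real4 A B G D c d z t) :
    Real4 B A D G d c (fun i j => z j i) (fun i j => t j i) where
  hW := fun i j => by have := h.hW j i; linarith
  hz := fun i j => by have := h.hz j i; rw [add_comm (B i)]; linarith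
  hc := h.hd
  hd := h.hc
  hlt := fun i j k l hh => h.hlt _ _ _ _ hh
  hle := fun i j k l hh => h.hle _ _ _ _ hh
  hcc := fun i j l l' hh hne => by
    have := h.hrr j i l l' hh hne
    rw [add_comm (B i), add_comm (B i)]; exact this
  hcr := fun i j l k hh hne => by
    have := h.hrc j i l k hh hne
    rw [add_comm (B k), add_comm (B i)]; exact this
  hrr := fun i j k k' hh hne => by
    have := h.hcc j i k k' hh hne
    rw [add_comm (B k'), add_comm (B k)]; exact this
  hrc := fun i j k l hh hne => by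
    have := h.hcr j i k l hh hne
    rw [add_comm (B i), add_comm (B k)]; exact this

/-- `δ_{jl}` at `z i j`. -/
theorem Real4.delta1 (h : Real4 A B G D c d z t) (i j l : Fin 4) :
    (D l - D j) - (B l - B j) * z i j = (A i + B l) * (z i l - z i j) := by
  have h1 := h.hz i l
  have h2 := h.hz i j
  linear_combination h2 - h1

/-- `δ_{jl}` at `z i l`. -/
theorem Real4.delta2 (h : Real4 A B G D c d z t) (i j l : Fin 4) :
    (D l - D j) - (B l - B j) * z i l = (A i + B j) * (z i l - z i j) := by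
  have h1 := h.hz i l
  have h2 := h.hz i j
  linear_combination h2 - h1

theorem Real4.delta_pos (h : Real4 A B G D c d z t) {i j l x : Fin 4} (hx : x = j ∨ x = l)
    (hlt : z i j < z i l) : 0 < (D l - D j) - (B l - B j) * z i x := by
  rcases hx with rfl | rfl
  · rw [h.delta1]; exact mul_pos (h.hW _ _) (by linarith)
  · rw [h.delta2]; exact mul_pos (h.hW _ _) (by linarith)

theorem Real4.delta_neg (h : Real4 A B G D c d z t) {i j l x : Fin 4} (hx : x = j ∨ x = l)
    (hlt : z i l < z i j) : (D l - D j) - (B l - B j) * z i x < 0 := by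
  have := h.delta_pos (i := i) (j := l) (l := j) (x := x) hx.symm hlt
  linarith

/-- pattern P -/
theorem Real4.patP (h : Real4 A B G D c d z t) {j l r1 r2 r3 cy : Fin 4}
    (h1 : t r1 j < t r1 l) (h2 : t r2 l < t r2 j) (h3 : t r3 j < t r3 l)
    (hcy : cy = j ∨ cy = l) (h4 : t r1 j < t r2 cy) (h5 : t r2 cy < t r3 l) : False := by
  have e1 := h.delta_pos (i := r1) (j := j) (l := l) (x := j) (Or.inl rfl) (h.hlt _ _ _ _ h1)
  have e2 := h.delta_neg (i := r2) (j := j) (l := l) (x := cy) hcy (h.hlt _ _ _ _ h2)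
  have e3 := h.delta_pos (i := r3) (j := j) (l := l) (x := l) (Or.inr rfl) (h.hlt _ _ _ _ h3)
  have z1 := h.hlt _ _ _ _ h4
  have z2 := h.hlt _ _ _ _ h5
  have i1 := mul_pos e1 (sub_pos.2 z2)
  have i3 := mul_pos e3 (sub_pos.2 z1)
  have i2 := mul_pos (neg_pos.2 e2) (sub_pos.2 (z1.trans z2))
  nlinarith [i1, i2, i3]

/-- pattern EE -/
theorem Real4.patEE (h : Real4 A B G D c d z t) {i j l i2 j2 l2 k cx k2 cy : Fin 4}
    (hP : t i l = t i j + 1) (hS : t i2 l2 = t i2 j2 + 1)
    (h1 : t i j < t i l2) (h2 : t i2 j2 < t i2 l)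
    (h3 : t k l < t k l2) (h4 : t k2 l2 < t k2 l)
    (hcx : cx = l ∨ cx = l2) (hcy : cy = l ∨ cy = l2)
    (h5 : t i j ≤ t k cx) (h6 : t k2 cy ≤ t i2 j2) (h7 : t k cx < t k2 cy) : False := by
  -- Dantzig comparisons
  have hne1 : l2 ≠ j := by rintro rfl; exact lt_irrefl _ h1
  have hne2 : l ≠ j2 := by rintro rfl; exact lt_irrefl _ h2
  have c1 := h.hcc i j l l2 hP hne1
  have c2 := h.hcc i2 j2 l2 l hS hne2
  -- values
  set muP := (A i + B l) * (z i l - z i j) with hmuP
  set muP2 := (A i + B l2) * (z i l2 - z i j) with hmuP2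
  set muS := (A i2 + B l) * (z i2 l - z i2 j2) with hmuS
  set muS2 := (A i2 + B l2) * (z i2 l2 - z i2 j2) with hmuS2
  have pP2 : 0 < muP2 := mul_pos (h.hW _ _) (sub_pos.2 (h.hlt _ _ _ _ h1))
  have pS : 0 < muS := mul_pos (h.hW _ _) (sub_pos.2 (h.hlt _ _ _ _ h2))
  have dl := h.hd l
  have dl2 := h.hd l2
  have pP : 0 < muP := mul_pos (h.hW _ _) (sub_pos.2 (h.hlt _ _ _ _ (by omega)))
  have pS2 : 0 < muS2 := mul_pos (h.hW _ _) (sub_pos.2 (h.hlt _ _ _ _ (by omega)))
  -- product comparison: muP2 * muS ≤ muP * muS2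
  have key : muP2 * muS ≤ muP * muS2 := by
    have hh : (d l2 * muP2) * (d l * muS) ≤ (d l * muP) * (d l2 * muS2) :=
      mul_le_mul c1 c2 (by positivity) (by positivity)
    have hp : 0 < d l * d l2 := mul_pos dl dl2
    by_contra hcon
    push Not at hcon
    have := mul_lt_mul_of_pos_left hcon hp
    nlinarith
  -- difference muP - muP2 = δ(z i j), muS - muS2 = δ(z i2 j2)
  set δ : ℝ → ℝ := fun x => (D l - D l2) - (B l - B l2) * x with hδ
  have dP : muP - muP2 = δ (z i j) := by
    have a1 := h.hz i l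
    have a2 := h.hz i l2
    simp only [hmuP, hmuP2, hδ]
    linear_combination a1 - a2
  have dS : muS - muS2 = δ (z i2 j2) := by
    have a1 := h.hz i2 l
    have a2 := h.hz i2 l2
    simp only [hmuS, hmuS2, hδ]
    linear_combination a1 - a2
  -- signs of δ at X and Y
  have sX : δ (z k cx) < 0 := by
    have := h.delta_pos (i := k) (j := l) (l := l2) (x := cx) hcx (h.hlt _ _ _ _ h3)
    simp only [hδ]; linarith
  have sY : 0 < δ (z k2 cy) := by
    have := h.delta_neg (i := k2) (j := l) (l := l2) (x := cy) hcy (h.hlt _ _ _ _ h4)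
    simp only [hδ]; linarith
  have zXY := h.hlt _ _ _ _ h7
  have zP := h.hle _ _ _ _ h5
  have zS := h.hle _ _ _ _ h6
  -- slope positive
  have slope : 0 < -(B l - B l2) := by
    by_contra hcon
    push Not at hcon
    have : δ (z k2 cy) - δ (z k cx) = -(B l - B l2) * (z k2 cy - z k cx) := by
      simp only [hδ]; ring
    have h9 : -(B l - B l2) * (z k2 cy - z k cx) ≤ 0 :=
      mul_nonpos_of_nonpos_of_nonneg hcon (by linarith)
    linarith
  have sP : δ (z i j) < 0 := by
    have : δ (z k cx) - δ (z i j) = -(B l - B l2) * (z k cx - z i j) := by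
      simp only [hδ]; ring
    have h9 : 0 ≤ -(B l - B l2) * (z k cx - z i j) := mul_nonneg slope.le (by linarith)
    linarith
  have sS : 0 < δ (z i2 j2) := by
    have : δ (z i2 j2) - δ (z k2 cy) = -(B l - B l2) * (z i2 j2 - z k2 cy) := by
      simp only [hδ]; ring
    have h9 : 0 ≤ -(B l - B l2) * (z i2 j2 - z k2 cy) := mul_nonneg slope.le (by linarith)
    linarith
  have f1 : muP < muP2 := by linarith
  have f2 : muS2 < muS := by linarith
  have : muP * muS2 < muP2 * muS := mul_lt_mul'' f1 f2 pP.le pS2.le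
  linarith

/-- pattern EG -/
theorem Real4.patEG (h : Real4 A B G D c d z t) {i j l i2 j2 k : Fin 4}
    (hP : t i l = t i j + 1) (hS : t k j2 = t i2 j2 + 1)
    (h0 : t i j < t i2 j2)
    (h1 : t i j < t k j) (h2 : t i2 j2 < t i2 l)
    (h3 : j = j2 ∨ t i2 j2 < t i2 j) (h4 : t k j < t k l) : False := by
  have hne1 : k ≠ i := by rintro rfl; exact lt_irrefl _ h1
  have hne2 : l ≠ j2 := by rintro rfl; exact lt_irrefl _ h2
  have c1 := h.hcr i j l k hP hne1
  have c2 := h.hrc i2 j2 k l hS hne2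
  -- X = λ_k, Y = μ_l
  set YP := (A i + B l) * (z i l - z i j) with hYP
  set XP := (A k + B j) * (z k j - z i j) with hXP
  set YS := (A i2 + B l) * (z i2 l - z i2 j2) with hYS
  set XS := (A k + B j2) * (z k j2 - z i2 j2) with hXS
  have pXP : 0 < XP := mul_pos (h.hW _ _) (sub_pos.2 (h.hlt _ _ _ _ h1))
  have pYS : 0 < YS := mul_pos (h.hW _ _) (sub_pos.2 (h.hlt _ _ _ _ h2))
  have pYP : 0 < YP := mul_pos (h.hW _ _) (sub_pos.2 (h.hlt _ _ _ _ (by omega)))
  have pXS : 0 < XS := mul_pos (h.hW _ _) (sub_pos.2 (h.hlt _ _ _ _ (by omega)))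
  have ck := h.hc k
  have dl := h.hd l
  have key : XP * YS ≤ YP * XS := by
    have hh : (c k * XP) * (d l * YS) ≤ (d l * YP) * (c k * XS) :=
      mul_le_mul c1 c2 (by positivity) (by positivity)
    have hp : 0 < c k * d l := mul_pos ck dl
    by_contra hcon
    push Not at hcon
    have := mul_lt_mul_of_pos_left hcon hp
    nlinarith
  -- M
  set M := (A k + B j) * (z k l - z k j) with hM
  have pM : 0 < M := mul_pos (h.hW _ _) (sub_pos.2 (h.hlt _ _ _ _ h4))
  have hWkl := h.hW k l
  have a1 := h.hz i l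
  have a2 := h.hz i j
  have a3 := h.hz k j
  have a4 := h.hz k l
  have b1 := h.hz i2 l
  have b2 := h.hz i2 j2
  have b3 := h.hz k j2
  have b4 := h.hz i2 j
  -- X + Y = W_kl (z_kl - z)
  have sumP : XP + YP = (A k + B l) * (z k l - z i j) := by
    simp only [hXP, hYP]
    linear_combination a1 + a3 - a4 - a2
  have sumS : XS + YS = (A k + B l) * (z k l - z i2 j2) := by
    simp only [hXS, hYS]
    linear_combination b1 + b3 - a4 - b2
  -- α Y + β X = μ_j + M, multiplied by W_kl
  have eqP : (A k + B j) * YP + (B j - B l) * XP = (A k + B l) * M := by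
    simp only [hXP, hYP, hM]
    linear_combination (A k + B j) * a1 - (A k + B j) * a2 + (B j - B l) * a3
      - (A k + B j) * a4 + (A k + B l) * a3
  have muj : 0 ≤ (A i2 + B j) * (z i2 j - z i2 j2) := by
    rcases h3 with rfl | h3
    · simp
    · exact mul_nonneg (h.hW _ _).le (sub_nonneg.2 (h.hlt _ _ _ _ h3).le)
  have eqS : (A k + B j) * YS + (B j - B l) * XS
      = (A k + B l) * M + (A k + B l) * ((A i2 + B j) * (z i2 j - z i2 j2)) := by
    simp only [hXS, hYS, hM]
    linear_combination (A k + B j) * b1 + (B j - B l) * b3 - (A k + B j) * b2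
      - (A k + B j) * a4 + (A k + B l) * a3 + (B l - B j) * b2
      + (A k + B l) * b2 - (A k + B l) * b4 - (B l - B j) * b2
  have zPS := h.hlt _ _ _ _ h0
  have id1 : (YS * XP - YP * XS) * (A k + B l)
      = ((A k + B j) * YS + (B j - B l) * XS) * (XP + YP)
        - ((A k + B j) * YP + (B j - B l) * XP) * (XS + YS) := by ring
  rw [eqP, eqS, sumP, sumS] at id1
  have pos1 : 0 < (A k + B l) * M * ((A k + B l) * (z i2 j2 - z i j)) :=
    mul_pos (mul_pos hWkl pM) (mul_pos hWkl (sub_pos.2 zPS))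
  have nn : 0 ≤ (A k + B l) * ((A i2 + B j) * (z i2 j - z i2 j2))
      * ((A k + B l) * (z k l - z i j)) := by
    rw [← sumP]
    exact mul_nonneg (mul_nonneg hWkl.le muj) (by linarith)
  have neg : (YS * XP - YP * XS) * (A k + B l) ≤ 0 :=
    mul_nonpos_of_nonpos_of_nonneg (by linarith) hWkl.le
  have id2 : (YS * XP - YP * XS) * (A k + B l)
      = (A k + B l) * M * ((A k + B l) * (z i2 j2 - z i j))
        + (A k + B l) * ((A i2 + B j) * (z i2 j - z i2 j2))
      * ((A k + B l) * (z k l - z i j)) := by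
    rw [id1]; ring
  linarith

end Pool.Agent.W300.SvD
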